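import Pool.Agent.W296.HL3
import Mathlib.Analysis.Convex.SpecificFunctions.Basic
import Mathlib.Analysis.SpecialFunctions.Log.Base

/-!
# Clusters: pairs of points in different clusters
-/

set_option autoImplicit false

namespace Pool.Agent.K7.H30.CT

open Finset
open Pool.Agent.W296.HL (cr cr_swap Gen)

/-- The nonempty proper subset `A` of the planar set `P` is a cluster: its convex hull contains no
other point of `P` and meets no line through two other points of `P` (`cr x y z = 0` says that `z`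
is on the line through the distinct points `x`, `y`). -/
def IsCluster (P A : Finset (ℝ × ℝ)) : Prop :=
  A ⊆ P ∧ (∀ x ∈ P, x ∉ A → x ∉ convexHull ℝ (A : Set (ℝ × ℝ))) ∧
    ∀ x ∈ P, ∀ y ∈ P, x ∉ A → y ∉ A → x ≠ y → ∀ z ∈ convexHull ℝ (A : Set (ℝ × ℝ)), cr x y z ≠ 0

lemma cr_cyc (x y z : ℝ × ℝ) : cr z x y = cr x y z := by unfold cr; ring

lemma cr_self_left (x y : ℝ × ℝ) : cr x y x = 0 := by unfold cr; ring

lemma cr_self_right (x y : ℝ × ℝ) : cr x y y = 0 := by unfold cr; ring

variable {P A B : Finset (ℝ × ℝ)}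

/-- a line through two other points does not separate the points of a cluster -/
lemma IsCluster.side (hA : IsCluster P A) {x y z z' : ℝ × ℝ} (hx : x ∈ P) (hy : y ∈ P)
    (hxA : x ∉ A) (hyA : y ∉ A) (hxy : x ≠ y) (hz : z ∈ A) (hz' : z' ∈ A) (h : 0 < cr x y z) :
    0 < cr x y z' := by
  by_contra hcon
  push Not at hcon
  have h1 : z ∈ convexHull ℝ (A : Set (ℝ × ℝ)) := subset_convexHull ℝ _ (mem_coe.mpr hz)
  have h2 : z' ∈ convexHull ℝ (A : Set (ℝ × ℝ)) := subset_convexHull ℝ _ (mem_coe.mpr hz')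
  set t := cr x y z / (cr x y z - cr x y z') with ht
  have h3 : 0 < cr x y z - cr x y z' := by linarith
  have ht0 : 0 ≤ t := div_nonneg h.le h3.le
  have ht1 : t ≤ 1 := by rw [ht, div_le_one h3]; linarith
  have h4 := (convex_convexHull ℝ (A : Set (ℝ × ℝ))) h1 h2 (sub_nonneg.mpr ht1) ht0 (by ring)
  apply hA.2.2 x hx y hy hxA hyA hxy _ h4
  have h5 : cr x y ((1 - t) • z + t • z') = cr x y z - t * (cr x y z - cr x y z') := by
    unfold cr
    simp only [Prod.fst_add, Prod.snd_add, Prod.smul_fst, Prod.smul_snd, smul_eq_mul]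
    ring
  rw [h5, ht, div_mul_cancel₀ _ h3.ne']
  ring

lemma IsCluster.side_iff (hA : IsCluster P A) {x y z z' : ℝ × ℝ} (hx : x ∈ P) (hy : y ∈ P)
    (hxA : x ∉ A) (hyA : y ∉ A) (hxy : x ≠ y) (hz : z ∈ A) (hz' : z' ∈ A) :
    0 < cr x y z ↔ 0 < cr x y z' :=
  ⟨hA.side hx hy hxA hyA hxy hz hz', hA.side hx hy hxA hyA hxy hz' hz⟩

/-- a cluster is in an open half-plane bounded by a line through a given other point -/
lemma IsCluster.half (hA : IsCluster P A) {x : ℝ × ℝ} (hx : x ∈ P) (hxA : x ∉ A) :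
    ∃ a b : ℝ, ∀ z ∈ A, 0 < a * (z.1 - x.1) + b * (z.2 - x.2) := by
  obtain ⟨f, u, hu1, hu2⟩ := geometric_hahn_banach_point_closed (convex_convexHull ℝ _)
    (A.finite_toSet.isClosed_convexHull ℝ) (hA.2.1 x hx hxA)
  have hf : ∀ y : ℝ × ℝ, f y = f (1, 0) * y.1 + f (0, 1) * y.2 := by
    intro y
    have : y = y.1 • ((1 : ℝ), (0 : ℝ)) + y.2 • ((0 : ℝ), (1 : ℝ)) := by
      ext <;> simp
    conv_lhs => rw [this]
    rw [map_add, map_smul, map_smul, smul_eq_mul, smul_eq_mul]
    ring
  refine ⟨f (1, 0), f (0, 1), fun z hz => ?_⟩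
  have h := hu2 z (subset_convexHull ℝ _ (mem_coe.mpr hz))
  have h2 := hf z
  have h3 := hf x
  nlinarith

lemma cr_trans {x u v w : ℝ × ℝ} {a b : ℝ} (hu : 0 < a * (u.1 - x.1) + b * (u.2 - x.2))
    (hv : 0 < a * (v.1 - x.1) + b * (v.2 - x.2)) (hw : 0 < a * (w.1 - x.1) + b * (w.2 - x.2))
    (h1 : 0 < cr x u v) (h2 : 0 < cr x v w) : 0 < cr x u w := by
  have h3 : (a * (v.1 - x.1) + b * (v.2 - x.2)) * cr x u w =
      (a * (u.1 - x.1) + b * (u.2 - x.2)) * cr x v w +
        (a * (w.1 - x.1) + b * (w.2 - x.2)) * cr x u v := by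
    unfold cr; ring
  have h4 := mul_pos hu h2
  have h5 := mul_pos hw h1
  have h6 : 0 < (a * (v.1 - x.1) + b * (v.2 - x.2)) * cr x u w := by linarith
  exact (pos_iff_pos_of_mul_pos h6).mp hv

open scoped Classical in
/-- the number of points of `P` to the left of the directed line from `x` to `y` -/
noncomputable def left (P : Finset (ℝ × ℝ)) (x y : ℝ × ℝ) : ℕ := #{z ∈ P | 0 < cr x y z}

open scoped Classical in
lemma left_add (hP : Gen P) {x y : ℝ × ℝ} (hx : x ∈ P) (hy : y ∈ P) (hxy : x ≠ y) :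
    left P x y + left P y x + 2 = #P := by
  have h1 : #{z ∈ P | ¬ 0 < cr x y z ∧ ¬ 0 < cr y x z} = 2 := by
    rw [← card_pair hxy]
    congr 1
    ext z
    simp only [mem_filter, mem_insert, mem_singleton]
    constructor
    · rintro ⟨hz, h2, h3⟩
      rw [cr_swap] at h3
      have h4 : cr x y z = 0 := by linarith [not_lt.mp h2, not_lt.mp h3]
      by_contra hcon
      push Not at hcon
      exact hP x hx y hy z hz hxy hcon.1.symm hcon.2.symm h4
    · rintro (rfl | rfl)
      · exact ⟨hx, by rw [cr_self_left]; exact lt_irrefl _, by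
          rw [cr_self_right]; exact lt_irrefl _⟩
      · exact ⟨hy, by rw [cr_self_right]; exact lt_irrefl _, by
          rw [cr_self_left]; exact lt_irrefl _⟩
  have h2 := Finset.card_filter_add_card_filter_not (s := P) (fun z => 0 < cr x y z)
  have h3 := Finset.card_filter_add_card_filter_not
    (s := P.filter (fun z => ¬ 0 < cr x y z)) (fun z => 0 < cr y x z)
  have h4 : (P.filter (fun z => ¬ 0 < cr x y z)).filter (fun z => 0 < cr y x z) =
      P.filter (fun z => 0 < cr y x z) := by
    ext z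
    simp only [mem_filter]
    constructor
    · exact fun h => ⟨h.1.1, h.2⟩
    · intro h
      refine ⟨⟨h.1, ?_⟩, h.2⟩
      have := h.2
      rw [cr_swap] at this
      linarith
  rw [h4, Finset.filter_filter, h1] at h3
  unfold left
  omega

open scoped Classical in
/-- for a fixed point `x` outside the cluster, distinct points of the cluster have distinct
numbers of points to the left -/
lemma IsCluster.left_injOn (hP : Gen P) (hA : IsCluster P A) {x : ℝ × ℝ} (hx : x ∈ P)
    (hxA : x ∉ A) : Set.InjOn (fun y => left P x y) A := by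
  obtain ⟨a, b, hab⟩ := hA.half hx hxA
  have key : ∀ y ∈ A, ∀ y' ∈ A, 0 < cr x y y' → left P x y' < left P x y := by
    intro y hy y' hy' h
    unfold left
    apply Finset.card_lt_card
    rw [Finset.ssubset_iff_of_subset]
    · refine ⟨y', ?_, ?_⟩
      · rw [mem_filter]; exact ⟨hA.1 hy', h⟩
      · rw [mem_filter, cr_self_right]; rintro ⟨-, h2⟩; exact lt_irrefl _ h2
    · intro z hz
      rw [mem_filter] at hz ⊢
      refine ⟨hz.1, ?_⟩
      by_cases hzA : z ∈ A
      · exact cr_trans (hab y hy) (hab y' hy') (hab z hzA) h hz.2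
      · have hzx : z ≠ x := by
          rintro rfl
          rw [cr_self_left] at hz
          exact lt_irrefl _ hz.2
        have h2 := hz.2
        rw [← cr_cyc] at h2 ⊢
        exact hA.side hz.1 hx hzA hxA hzx hy' hy h2
  intro y hy y' hy' h
  by_contra hyy
  rw [mem_coe] at hy hy'
  have hxy : x ≠ y := fun h1 => hxA (h1 ▸ hy)
  have hxy' : x ≠ y' := fun h1 => hxA (h1 ▸ hy')
  simp only at h
  rcases lt_or_gt_of_ne (hP x hx y (hA.1 hy) y' (hA.1 hy') hxy hxy' hyy) with h1 | h1
  · have h2 : 0 < cr x y' y := by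
      have : cr x y' y = - cr x y y' := by unfold cr; ring
      rw [this]; linarith
    have := key y' hy' y hy h2
    omega
  · have := key y hy y' hy' h1
    omega

open scoped Classical in
/-- the ordered pairs in `A × B` with exactly `k` points of `P` to the left -/
noncomputable def pairs (P : Finset (ℝ × ℝ)) (k : ℕ) (A B : Finset (ℝ × ℝ)) :
    Finset ((ℝ × ℝ) × (ℝ × ℝ)) :=
  (A ×ˢ B).filter (fun z => z.1 ≠ z.2 ∧ left P z.1 z.2 = k)

lemma mem_pairs {k : ℕ} {z : (ℝ × ℝ) × (ℝ × ℝ)} :
    z ∈ pairs P k A B ↔ (z.1 ∈ A ∧ z.2 ∈ B) ∧ z.1 ≠ z.2 ∧ left P z.1 z.2 = k := by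
  classical
  unfold pairs
  rw [mem_filter, mem_product]

/-- between two disjoint clusters there are at most `min (#A) (#B)` ordered pairs with `k` points
to the left -/
lemma cross_le (hP : Gen P) (hA : IsCluster P A) (hB : IsCluster P B) (hAB : Disjoint A B)
    (k : ℕ) : #(pairs P k A B) ≤ min #A #B := by
  classical
  apply le_min
  · -- for each `x` at most one `y`
    apply card_le_card_of_injOn (fun z => z.1)
    · intro z hz
      exact mem_coe.mpr (mem_pairs.mp (mem_coe.mp hz)).1.1
    · intro z hz z' hz' h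
      rw [mem_coe, mem_pairs] at hz hz'
      simp only at h
      have hx : z.1 ∉ B := Finset.disjoint_left.mp hAB hz.1.1
      have h2 := hB.left_injOn hP (hA.1 hz.1.1) hx (mem_coe.mpr hz.1.2) (mem_coe.mpr hz'.1.2) (by
        simp only
        rw [hz.2.2, h, hz'.2.2])
      exact Prod.ext h h2
  · apply card_le_card_of_injOn (fun z => z.2)
    · intro z hz
      exact mem_coe.mpr (mem_pairs.mp (mem_coe.mp hz)).1.2
    · intro z hz z' hz' h
      rw [mem_coe, mem_pairs] at hz hz'
      simp only at h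
      have hy : z.2 ∉ A := Finset.disjoint_right.mp hAB hz.1.2
      have h3 := left_add hP (hA.1 hz.1.1) (hB.1 hz.1.2) hz.2.1
      have h4 := left_add hP (hA.1 hz'.1.1) (hB.1 hz'.1.2) hz'.2.1
      have h2 := hA.left_injOn hP (hB.1 hz.1.2) hy (mem_coe.mpr hz.1.1) (mem_coe.mpr hz'.1.1) (by
        simp only
        rw [hz.2.2] at h3
        rw [hz'.2.2, ← h] at h4
        omega)
      exact Prod.ext h2 h

/-- A tree of clusters with at most `b` children of every node: `ClusterTree b P A` says that `A` is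
a single point, or the disjoint union of at most `b` clusters of `P` which have such trees. -/
inductive ClusterTree (b : ℕ) (P : Finset (ℝ × ℝ)) : Finset (ℝ × ℝ) → Prop
  | leaf (p : ℝ × ℝ) : ClusterTree b P {p}
  | node (m : ℕ) (hm : m ≤ b) (A : Fin m → Finset (ℝ × ℝ)) (hA : ∀ i, IsCluster P (A i))
      (hd : ∀ i j, i ≠ j → Disjoint (A i) (A j)) (ht : ∀ i, ClusterTree b P (A i)) :
      ClusterTree b P (Finset.univ.biUnion A)

/-- the elementary inequality -/
lemma min_le_mul_log {a c C : ℝ} (ha : 0 ≤ a) (hc : 0 ≤ c) (hC : a + c ≤ C) :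
    min a c ≤ a * Real.logb 2 C - a * Real.logb 2 a := by
  rcases ha.eq_or_lt with h0 | h0
  · rw [← h0]
    simp
  · have h1 : Real.logb 2 (a + c) ≤ Real.logb 2 C :=
      Real.logb_le_logb_of_le (by norm_num) (by linarith) hC
    have h2 : Real.logb 2 (a + c) = Real.logb 2 a + Real.logb 2 (1 + c / a) := by
      rw [← Real.logb_mul h0.ne' (by positivity)]
      congr 1
      field_simp
    have h3 : min 1 (c / a) ≤ Real.logb 2 (1 + c / a) := by
      have hca : 0 ≤ c / a := by positivity
      rw [Real.le_logb_iff_rpow_le (by norm_num) (by positivity)]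
      rcases le_total 1 (c / a) with h | h
      · rw [min_eq_left h, Real.rpow_one]
        linarith
      · rw [min_eq_right h]
        have := rpow_one_add_le_one_add_mul_self (s := 1) (by norm_num) hca h
        have e1 : (1 : ℝ) + 1 = 2 := by norm_num
        rw [e1, mul_one] at this
        exact this
    have h4 : min a c = a * min 1 (c / a) := by
      rw [mul_min_of_nonneg _ _ ha, mul_one, mul_div_cancel₀ _ h0.ne']
    rw [h4]
    have h5 := mul_le_mul_of_nonneg_left h3 ha
    have h6 := mul_le_mul_of_nonneg_left h1 ha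
    rw [h2, mul_add] at h6
    linarith

/-- the main induction -/
theorem tree_bound (hP : Gen P) {b : ℕ} (k : ℕ) (hA : ClusterTree b P A) :
    (#(pairs P k A A) : ℝ) ≤ (b - 1) * (#A * Real.logb 2 #A) := by
  classical
  induction hA with
  | leaf p =>
    have h : pairs P k {p} {p} = ∅ := by
      rw [Finset.eq_empty_iff_forall_notMem]
      intro z hz
      rw [mem_pairs, mem_singleton, mem_singleton] at hz
      exact hz.2.1 (hz.1.1.trans hz.1.2.symm)
    rw [h]
    simp
  | node m hm A hAc hd ht ih =>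
    have hcard : #(Finset.univ.biUnion A) = ∑ i, #(A i) :=
      Finset.card_biUnion (fun i _ j _ hij => hd i j hij)
    have hsub : pairs P k (Finset.univ.biUnion A) (Finset.univ.biUnion A) ⊆
        (Finset.univ : Finset (Fin m)).biUnion (fun i => pairs P k (A i) (A i) ∪
          (Finset.univ.erase i).biUnion (fun j => pairs P k (A i) (A j))) := by
      intro z hz
      rw [mem_pairs, mem_biUnion, mem_biUnion] at hz
      obtain ⟨⟨⟨i, -, hi⟩, ⟨j, -, hj⟩⟩, h1, h2⟩ := hz
      rw [mem_biUnion]
      refine ⟨i, mem_univ _, ?_⟩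
      rw [mem_union]
      by_cases hij : j = i
      · subst hij
        exact Or.inl (mem_pairs.mpr ⟨⟨hi, hj⟩, h1, h2⟩)
      · right
        rw [mem_biUnion]
        exact ⟨j, mem_erase.mpr ⟨hij, mem_univ _⟩, mem_pairs.mpr ⟨⟨hi, hj⟩, h1, h2⟩⟩
    set C : ℝ := ∑ i, (#(A i) : ℝ) with hC
    have hCc : (#(Finset.univ.biUnion A) : ℝ) = C := by rw [hcard, hC]; push_cast; rfl
    have h1 : (#(pairs P k (Finset.univ.biUnion A) (Finset.univ.biUnion A)) : ℝ) ≤
        ∑ i, ((#(pairs P k (A i) (A i)) : ℝ) +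
          ∑ j ∈ Finset.univ.erase i, (#(pairs P k (A i) (A j)) : ℝ)) := by
      have h2 := Finset.card_le_card hsub
      have h3 := h2.trans Finset.card_biUnion_le
      have h4 : ∀ i : Fin m, #(pairs P k (A i) (A i) ∪
          (Finset.univ.erase i).biUnion (fun j => pairs P k (A i) (A j))) ≤
          #(pairs P k (A i) (A i)) + ∑ j ∈ Finset.univ.erase i, #(pairs P k (A i) (A j)) :=
        fun i => (Finset.card_union_le _ _).trans (Nat.add_le_add_left Finset.card_biUnion_le _)
      have h5 := h3.trans (Finset.sum_le_sum fun i _ => h4 i)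
      exact_mod_cast h5
    have hnn : ∀ i, 0 ≤ (#(A i) : ℝ) := fun i => Nat.cast_nonneg _
    have hle : ∀ i, (#(A i) : ℝ) * Real.logb 2 C - #(A i) * Real.logb 2 #(A i) ≥ 0 := by
      intro i
      have h6 := min_le_mul_log (hnn i) le_rfl (C := C) (by
        rw [add_zero]
        exact Finset.single_le_sum (f := fun i => (#(A i) : ℝ)) (fun j _ => hnn j) (mem_univ i))
      rw [min_eq_right (hnn i)] at h6
      exact h6
    have h2 : ∀ i, (#(pairs P k (A i) (A i)) : ℝ) +
        ∑ j ∈ Finset.univ.erase i, (#(pairs P k (A i) (A j)) : ℝ) ≤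
        (b - 1) * (#(A i) * Real.logb 2 C) := by
      intro i
      have h3 : ∀ j ∈ Finset.univ.erase i, (#(pairs P k (A i) (A j)) : ℝ) ≤
          #(A i) * Real.logb 2 C - #(A i) * Real.logb 2 #(A i) := by
        intro j hj
        have hij : i ≠ j := (ne_of_mem_erase hj).symm
        have h4 := cross_le hP (hAc i) (hAc j) (hd i j hij) k
        have h5 : (#(pairs P k (A i) (A j)) : ℝ) ≤ min (#(A i) : ℝ) #(A j) := by
          rw [← Nat.cast_min]
          exact_mod_cast h4
        refine h5.trans (min_le_mul_log (hnn i) (hnn j) ?_)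
        have h6 : (#(A i) : ℝ) + #(A j) = ∑ l ∈ ({i, j} : Finset (Fin m)), (#(A l) : ℝ) := by
          rw [Finset.sum_pair hij]
        rw [h6, hC]
        exact Finset.sum_le_sum_of_subset_of_nonneg (Finset.subset_univ _) fun l _ _ => hnn l
      have h4 := Finset.sum_le_sum h3
      rw [Finset.sum_const, card_erase_of_mem (mem_univ i), card_univ, Fintype.card_fin,
        nsmul_eq_mul] at h4
      have hm1 : 1 ≤ m := Nat.one_le_iff_ne_zero.mpr (by rintro rfl; exact i.elim0)
      have h5 : (((m - 1 : ℕ)) : ℝ) ≤ b - 1 := by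
        rw [Nat.cast_sub hm1, Nat.cast_one]
        have : (m : ℝ) ≤ b := by exact_mod_cast hm
        linarith
      have h6 := mul_le_mul_of_nonneg_right h5 (hle i)
      have h7 := ih i
      nlinarith
    refine h1.trans ((Finset.sum_le_sum fun i _ => h2 i).trans (le_of_eq ?_))
    rw [hCc, ← Finset.mul_sum, ← Finset.sum_mul]

end Pool.Agent.K7.H30.CT
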