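import Pool.Agent.K7.H30.CT.Lines
import Pool.Agent.K7.H30.HB.Main

/-!
# Partitions into clusters of equal size
-/

set_option autoImplicit false

namespace Pool.Agent.K7.H30.CT

open Finset
open Pool.Agent.W296.HL (cr cr_swap Gen)

section step

variable {m w : ℕ} {A : Fin m → Finset (ℝ × ℝ)} {s : Fin m → ℝ × ℝ}

/-- the hypotheses for one step -/
structure Part (A : Fin m → Finset (ℝ × ℝ)) (s : Fin m → ℝ × ℝ) (w : ℕ) : Prop where
  gen : Gen (Finset.univ.biUnion A)
  clu : ∀ i, IsCluster (Finset.univ.biUnion A) (A i)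
  dis : ∀ i j, i ≠ j → Disjoint (A i) (A j)
  car : ∀ i, #(A i) = w
  mem : ∀ i, s i ∈ A i

lemma Part.memU (h : Part A s w) {i : Fin m} {x : ℝ × ℝ} (hx : x ∈ A i) :
    x ∈ Finset.univ.biUnion A := (h.clu i).1 hx

lemma Part.nmem (h : Part A s w) {i j : Fin m} (hij : i ≠ j) {x : ℝ × ℝ} (hx : x ∈ A i) :
    x ∉ A j := Finset.disjoint_left.mp (h.dis i j hij) hx

lemma Part.ne (h : Part A s w) {i j : Fin m} (hij : i ≠ j) {x y : ℝ × ℝ} (hx : x ∈ A i)
    (hy : y ∈ A j) : x ≠ y := by
  rintro rfl
  exact h.nmem hij hx hy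

lemma Part.inj (h : Part A s w) : Function.Injective s := by
  intro i j hij
  by_contra hne
  exact h.ne hne (h.mem i) (h.mem j) hij

/-- the orientation of three points of different clusters -/
lemma Part.indep (h : Part A s w) {i j l : Fin m} (hij : i ≠ j) (hil : i ≠ l) (hjl : j ≠ l)
    {x y z : ℝ × ℝ} (hx : x ∈ A i) (hy : y ∈ A j) (hz : z ∈ A l) :
    0 < cr x y z ↔ 0 < cr (s i) (s j) (s l) := by
  have h1 : 0 < cr x y z ↔ 0 < cr x y (s l) :=
    (h.clu l).side_iff (h.memU hx) (h.memU hy) (h.nmem hil hx) (h.nmem hjl hy)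
      (h.ne hij hx hy) hz (h.mem l)
  have h2 : 0 < cr (s l) x y ↔ 0 < cr (s l) x (s j) :=
    (h.clu j).side_iff (h.memU (h.mem l)) (h.memU hx) (h.nmem hjl.symm (h.mem l))
      (h.nmem hij hx) (h.ne hil.symm (h.mem l) hx) hy (h.mem j)
  have h3 : 0 < cr (s j) (s l) x ↔ 0 < cr (s j) (s l) (s i) :=
    (h.clu i).side_iff (h.memU (h.mem j)) (h.memU (h.mem l)) (h.nmem hij.symm (h.mem j))
      (h.nmem hil.symm (h.mem l)) (h.ne hjl (h.mem j) (h.mem l)) hx (h.mem i)
  rw [h1, ← cr_cyc x y (s l), h2, ← cr_cyc (s l) x (s j), h3, ← cr_cyc (s j) (s l) (s i)]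

open scoped Classical in
lemma Part.left_sum (h : Part A s w) (x y : ℝ × ℝ) :
    left (Finset.univ.biUnion A) x y = ∑ l, #{z ∈ A l | 0 < cr x y z} := by
  unfold left
  rw [Finset.filter_biUnion, Finset.card_biUnion]
  intro i _ j _ hij
  exact Finset.disjoint_filter_filter (h.dis i j hij)

open scoped Classical in
lemma Part.card_side (h : Part A s w) {x y : ℝ × ℝ} {l : Fin m}
    (hx : x ∈ Finset.univ.biUnion A) (hy : y ∈ Finset.univ.biUnion A) (hxl : x ∉ A l)
    (hyl : y ∉ A l) (hxy : x ≠ y) :
    #{z ∈ A l | 0 < cr x y z} = if 0 < cr x y (s l) then w else 0 := by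
  split_ifs with hc
  · rw [Finset.filter_true_of_mem, h.car l]
    intro z hz
    exact (h.clu l).side hx hy hxl hyl hxy (h.mem l) hz hc
  · rw [Finset.filter_false_of_mem, Finset.card_empty]
    intro z hz hz2
    exact hc ((h.clu l).side hx hy hxl hyl hxy hz (h.mem l) hz2)

open scoped Classical in
/-- pairs in the same cluster -/
lemma Part.inside (h : Part A s w) {i : Fin m} {x y : ℝ × ℝ} (hx : x ∈ A i) (hy : y ∈ A i)
    (hxy : x ≠ y) : left (Finset.univ.biUnion A) x y % w = left (A i) x y := by
  have h1 := h.left_sum x y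
  rw [← Finset.add_sum_erase _ _ (mem_univ i)] at h1
  have h2 : ∀ l ∈ Finset.univ.erase i, #{z ∈ A l | 0 < cr x y z} =
      w * (if 0 < cr x y (s l) then 1 else 0) := by
    intro l hl
    have hli := ne_of_mem_erase hl
    rw [h.card_side (h.memU hx) (h.memU hy) (h.nmem hli.symm hx) (h.nmem hli.symm hy) hxy]
    split_ifs <;> simp
  rw [Finset.sum_congr rfl h2, ← Finset.mul_sum] at h1
  have h3 : left (A i) x y < w := by
    rw [← h.car i]
    unfold left
    apply Finset.card_lt_card
    rw [Finset.ssubset_iff_of_subset (Finset.filter_subset _ _)]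
    refine ⟨x, hx, ?_⟩
    rw [mem_filter, cr_self_left]
    rintro ⟨-, h4⟩
    exact lt_irrefl _ h4
  have h4 : #{z ∈ A i | 0 < cr x y z} = left (A i) x y := rfl
  rw [h4] at h1
  rw [h1, Nat.add_mul_mod_self_left, Nat.mod_eq_of_lt h3]

open scoped Classical in
/-- pairs in different clusters -/
lemma Part.cross (h : Part A s w) {i j : Fin m} (hij : i ≠ j) :
    ∃ α β : ℝ × ℝ → ℕ, Set.InjOn α (A i) ∧ (∀ x ∈ A i, α x < w) ∧ (∀ y ∈ A j, β y < w) ∧
      ∀ x ∈ A i, ∀ y ∈ A j, left (Finset.univ.biUnion A) x y =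
        w * left (Finset.univ.image s) (s i) (s j) + (α x + β y) := by
  have hsum : ∀ x ∈ A i, ∀ y ∈ A j, left (Finset.univ.biUnion A) x y =
      w * left (Finset.univ.image s) (s i) (s j) +
        (#{z ∈ A i | 0 < cr x (s j) z} + #{z ∈ A j | 0 < cr (s i) y z}) := by
    intro x hx y hy
    have h1 := h.left_sum x y
    rw [← Finset.add_sum_erase _ _ (mem_univ i), ← Finset.add_sum_erase _ _
      (mem_erase.mpr ⟨hij.symm, mem_univ j⟩)] at h1
    have h2 : ∀ l ∈ (Finset.univ.erase i).erase j, #{z ∈ A l | 0 < cr x y z} =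
        w * (if 0 < cr (s i) (s j) (s l) then 1 else 0) := by
      intro l hl
      rw [mem_erase, mem_erase] at hl
      rw [h.card_side (h.memU hx) (h.memU hy) (h.nmem hl.2.1.symm hx) (h.nmem hl.1.symm hy)
        (h.ne hij hx hy)]
      have hi := h.indep hij hl.2.1.symm hl.1.symm hx hy (h.mem l)
      by_cases hc : 0 < cr (s i) (s j) (s l)
      · rw [if_pos hc, if_pos (hi.mpr hc)]; simp
      · rw [if_neg hc, if_neg (fun h' => hc (hi.mp h'))]; simp
    rw [Finset.sum_congr rfl h2, ← Finset.mul_sum] at h1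
    have h3 : left (Finset.univ.image s) (s i) (s j) =
        ∑ l ∈ (Finset.univ.erase i).erase j, (if 0 < cr (s i) (s j) (s l) then 1 else 0) := by
      unfold left
      rw [Finset.filter_image, Finset.card_image_of_injective _ h.inj, Finset.card_filter]
      rw [← Finset.add_sum_erase _ _ (mem_univ i), ← Finset.add_sum_erase _ _
        (mem_erase.mpr ⟨hij.symm, mem_univ j⟩), cr_self_left, cr_self_right]
      simp
    have h4 : #{z ∈ A i | 0 < cr x y z} = #{z ∈ A i | 0 < cr x (s j) z} := by
      congr 1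
      apply Finset.filter_congr
      intro z hz
      by_cases hzx : z = x
      · rw [hzx, cr_self_left, cr_self_left]
      · rw [← cr_cyc x y z, ← cr_cyc x (s j) z]
        exact (h.clu j).side_iff (h.memU hz) (h.memU hx) (h.nmem hij hz) (h.nmem hij hx)
          hzx hy (h.mem j)
    have h5 : #{z ∈ A j | 0 < cr x y z} = #{z ∈ A j | 0 < cr (s i) y z} := by
      congr 1
      apply Finset.filter_congr
      intro z hz
      by_cases hzy : z = y
      · rw [hzy, cr_self_right, cr_self_right]
      · have e1 : ∀ u, cr u y z = cr y z u := fun u => by unfold cr; ring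
        rw [e1 x, e1 (s i)]
        exact (h.clu i).side_iff (h.memU hy) (h.memU hz) (h.nmem hij.symm hy)
          (h.nmem hij.symm hz) (Ne.symm hzy) hx (h.mem i)
    rw [h1, h3, h4, h5]
    ring
  refine ⟨fun x => #{z ∈ A i | 0 < cr x (s j) z}, fun y => #{z ∈ A j | 0 < cr (s i) y z},
    ?_, ?_, ?_, hsum⟩
  · intro x hx x' hx' hxx
    rw [mem_coe] at hx hx'
    simp only at hxx
    have h1 := hsum x hx (s j) (h.mem j)
    have h2 := hsum x' hx' (s j) (h.mem j)
    have h3 := left_add h.gen (h.memU hx) (h.memU (h.mem j)) (h.ne hij hx (h.mem j))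
    have h4 := left_add h.gen (h.memU hx') (h.memU (h.mem j)) (h.ne hij hx' (h.mem j))
    exact (h.clu i).left_injOn h.gen (h.memU (h.mem j)) (h.nmem hij.symm (h.mem j))
      (mem_coe.mpr hx) (mem_coe.mpr hx') (by
        simp only
        omega)
  · intro x hx
    rw [← h.car i]
    apply Finset.card_lt_card
    rw [Finset.ssubset_iff_of_subset (Finset.filter_subset _ _)]
    refine ⟨x, hx, ?_⟩
    rw [mem_filter, cr_self_left]
    rintro ⟨-, h4⟩
    exact lt_irrefl _ h4
  · intro y hy
    rw [← h.car j]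
    apply Finset.card_lt_card
    rw [Finset.ssubset_iff_of_subset (Finset.filter_subset _ _)]
    refine ⟨y, hy, ?_⟩
    rw [mem_filter, cr_self_right]
    rintro ⟨-, h4⟩
    exact lt_irrefl _ h4

open scoped Classical in
lemma Part.cross_card (h : Part A s w) {i j : Fin m} (hij : i ≠ j) (k : ℕ) :
    #(pairs (Finset.univ.biUnion A) k (A i) (A j)) ≤
      (if left (Finset.univ.image s) (s i) (s j) = k / w then k % w + 1 else 0) +
      (if left (Finset.univ.image s) (s i) (s j) + 1 = k / w then w - 1 - k % w else 0) := by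
  obtain ⟨α, β, hα, hα2, hβ, hsum⟩ := h.cross hij
  set lam := left (Finset.univ.image s) (s i) (s j) with hlam
  have hw : 0 < w := by
    rw [← h.car i]
    exact Finset.card_pos.mpr ⟨_, h.mem i⟩
  have hdiv := Nat.div_add_mod k w
  have hmod := Nat.mod_lt k hw
  have hinj : Set.InjOn (fun z : (ℝ × ℝ) × (ℝ × ℝ) => α z.1)
      (pairs (Finset.univ.biUnion A) k (A i) (A j)) := by
    intro z hz z' hz' hzz
    rw [mem_coe, mem_pairs] at hz hz'
    simp only at hzz
    have h1 := hα (mem_coe.mpr hz.1.1) (mem_coe.mpr hz'.1.1) hzz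
    have h2 := (h.clu j).left_injOn h.gen (h.memU hz.1.1) (h.nmem hij hz.1.1)
      (mem_coe.mpr hz.1.2) (mem_coe.mpr hz'.1.2) (by
        simp only
        rw [hz.2.2, h1, hz'.2.2])
    exact Prod.ext h1 h2
  by_cases hc1 : lam = k / w
  · rw [if_pos hc1]
    refine le_trans ?_ (Nat.le_add_right _ _)
    rw [← Finset.card_range (k % w + 1)]
    refine Finset.card_le_card_of_injOn _ ?_ hinj
    intro z hz
    rw [mem_coe, mem_pairs] at hz
    rw [mem_coe, mem_range]
    have h1 := hsum z.1 hz.1.1 z.2 hz.1.2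
    rw [hz.2.2, hc1] at h1
    simp only
    omega
  · by_cases hc2 : lam + 1 = k / w
    · rw [if_neg hc1, if_pos hc2, zero_add]
      have e1 : w - 1 - k % w = #(Finset.Ico (k % w + 1) w) := by
        rw [Nat.card_Ico]
        omega
      rw [e1]
      refine Finset.card_le_card_of_injOn _ ?_ hinj
      intro z hz
      rw [mem_coe, mem_pairs] at hz
      rw [mem_coe, mem_Ico]
      have h1 := hsum z.1 hz.1.1 z.2 hz.1.2
      have h2 := hα2 z.1 hz.1.1
      have h3 := hβ z.2 hz.1.2
      rw [hz.2.2, ← hdiv, ← hc2, Nat.mul_add, mul_one] at h1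
      simp only
      omega
    · rw [if_neg hc1, if_neg hc2, Nat.le_zero, Finset.card_eq_zero,
        Finset.eq_empty_iff_forall_notMem]
      intro z hz
      rw [mem_pairs] at hz
      have h1 := hsum z.1 hz.1.1 z.2 hz.1.2
      have h2 := hα2 z.1 hz.1.1
      have h3 := hβ z.2 hz.1.2
      rw [hz.2.2] at h1
      -- `w * lam ≤ k < w * (lam + 2)`
      have h4 : lam ≤ k / w := by
        rw [Nat.le_div_iff_mul_le hw]
        rw [mul_comm]
        omega
      have h5 : k / w < lam + 2 := by
        rw [Nat.div_lt_iff_lt_mul hw]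
        have : (lam + 2) * w = w * lam + 2 * w := by ring
        rw [this]
        omega
      omega

open scoped Classical in
/-- one step -/
theorem Part.step (h : Part A s w) (k H : ℕ)
    (hH : ∀ j, #(pairs (Finset.univ.image s) j (Finset.univ.image s) (Finset.univ.image s)) ≤ H) :
    #(pairs (Finset.univ.biUnion A) k (Finset.univ.biUnion A) (Finset.univ.biUnion A)) ≤
      ∑ i, #(pairs (A i) (k % w) (A i) (A i)) + w * H := by
  set S := Finset.univ.image s with hS
  set P := Finset.univ.biUnion A with hPdef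
  rcases Nat.eq_zero_or_pos m with hm0 | hm0
  · subst hm0
    have : P = ∅ := by rw [hPdef]; simp
    have h0 : pairs P k P P = ∅ := by
      rw [Finset.eq_empty_iff_forall_notMem]
      intro z hz
      rw [mem_pairs, this] at hz
      exact absurd hz.1.1 (notMem_empty _)
    rw [h0]
    simp
  have hw : 0 < w := by
    rw [← h.car ⟨0, hm0⟩]
    exact Finset.card_pos.mpr ⟨_, h.mem _⟩
  have hmod := Nat.mod_lt k hw
  have hsub : pairs P k P P ⊆ (Finset.univ : Finset (Fin m)).biUnion (fun i =>
      pairs (A i) (k % w) (A i) (A i)) ∪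
        (Finset.univ.offDiag : Finset (Fin m × Fin m)).biUnion
          (fun c => pairs P k (A c.1) (A c.2)) := by
    intro z hz
    rw [mem_pairs, hPdef, mem_biUnion, mem_biUnion] at hz
    obtain ⟨⟨⟨i, -, hi⟩, ⟨j, -, hj⟩⟩, h1, h2⟩ := hz
    rw [mem_union]
    by_cases hij : i = j
    · subst hij
      left
      rw [mem_biUnion]
      refine ⟨i, mem_univ _, mem_pairs.mpr ⟨⟨hi, hj⟩, h1, ?_⟩⟩
      rw [← h2]
      exact (h.inside hi hj h1).symm
    · right
      rw [mem_biUnion]
      exact ⟨(i, j), by rw [mem_offDiag]; exact ⟨mem_univ _, mem_univ _, hij⟩,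
        mem_pairs.mpr ⟨⟨hi, hj⟩, h1, h2⟩⟩
  have h1 := (Finset.card_le_card hsub).trans (Finset.card_union_le _ _)
  have h2 : #((Finset.univ : Finset (Fin m)).biUnion (fun i =>
      pairs (A i) (k % w) (A i) (A i))) ≤ ∑ i, #(pairs (A i) (k % w) (A i) (A i)) :=
    Finset.card_biUnion_le
  have h3 : #((Finset.univ.offDiag : Finset (Fin m × Fin m)).biUnion
          (fun c => pairs P k (A c.1) (A c.2))) ≤
      ∑ c ∈ (Finset.univ.offDiag : Finset (Fin m × Fin m)),
        ((if left S (s c.1) (s c.2) = k / w then k % w + 1 else 0) +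
        (if left S (s c.1) (s c.2) + 1 = k / w then w - 1 - k % w else 0)) := by
    refine Finset.card_biUnion_le.trans (Finset.sum_le_sum fun c hc => ?_)
    rw [mem_offDiag] at hc
    exact h.cross_card hc.2.2 k
  -- the number of pairs of representatives
  have h4 : ∀ q : ℕ, #{c ∈ (Finset.univ.offDiag : Finset (Fin m × Fin m)) |
      left S (s c.1) (s c.2) = q} ≤ H := by
    intro q
    refine le_trans ?_ (hH q)
    refine Finset.card_le_card_of_injOn (fun c => (s c.1, s c.2)) ?_ ?_
    · intro c hc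
      rw [mem_coe, mem_filter, mem_offDiag] at hc
      rw [mem_coe, mem_pairs]
      exact ⟨⟨mem_image_of_mem _ (mem_univ _), mem_image_of_mem _ (mem_univ _)⟩,
        fun h5 => hc.1.2.2 (h.inj h5), hc.2⟩
    · intro c _ c' _ h5
      simp only [Prod.mk.injEq] at h5
      exact Prod.ext (h.inj h5.1) (h.inj h5.2)
  have h5 : ∑ c ∈ (Finset.univ.offDiag : Finset (Fin m × Fin m)),
        ((if left S (s c.1) (s c.2) = k / w then k % w + 1 else 0) +
        (if left S (s c.1) (s c.2) + 1 = k / w then w - 1 - k % w else 0)) ≤ w * H := by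
    rw [Finset.sum_add_distrib, ← Finset.sum_filter, ← Finset.sum_filter, Finset.sum_const,
      Finset.sum_const, smul_eq_mul, smul_eq_mul]
    have h6 := h4 (k / w)
    have h7 : #{c ∈ (Finset.univ.offDiag : Finset (Fin m × Fin m)) |
        left S (s c.1) (s c.2) + 1 = k / w} ≤ H := by
      refine le_trans (Finset.card_le_card ?_) (h4 (k / w - 1))
      intro c hc
      rw [mem_filter] at hc ⊢
      exact ⟨hc.1, by omega⟩
    have h8 := Nat.mul_le_mul_right (k % w + 1) h6
    have h9 := Nat.mul_le_mul_right (w - 1 - k % w) h7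
    have h10 : H * (k % w + 1) + H * (w - 1 - k % w) = w * H := by
      rw [← Nat.mul_add]
      have : k % w + 1 + (w - 1 - k % w) = w := by omega
      rw [this, mul_comm]
    omega
  omega

end step

/-! ### Dey's bound for ordered pairs -/

open Pool.Agent.Y429.HalvFew Pool.Agent.K7.H30.HB Pool.Agent.TH124.KE in
open scoped Classical in
lemma pairs_le_dey {S : Finset (ℝ × ℝ)} (hS : Gen S) (j : ℕ) :
    (#(pairs S j S S) : ℝ) ≤ 14 * (#S : ℝ) ^ (4 / 3 : ℝ) := by
  obtain ⟨ε, hε⟩ := exists_shear S
  have hGP := gp_shear hS hε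
  have hcard : #(S.image (shr ε)) = #S := Finset.card_image_of_injective _ (shr_inj ε)
  have h1 : #((pairs S j S S).filter (fun z => (shr ε z.1).1 < (shr ε z.2).1)) ≤
      #(kes (S.image (shr ε)) (#S - 2 - j)) := by
    refine Finset.card_le_card_of_injOn (fun z => (shr ε z.1, shr ε z.2)) ?_ ?_
    · intro z hz
      rw [mem_coe, mem_filter, mem_pairs] at hz
      obtain ⟨⟨⟨h1, h2⟩, h3, h4⟩, h5⟩ := hz
      have hx := mem_image_of_mem (shr ε) h1
      have hy := mem_image_of_mem (shr ε) h2
      rw [mem_coe, mem_kes]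
      refine ⟨hx, hy, h5, ?_⟩
      have h6 := bel_abv hGP hx hy h5
      have h7 : abv (S.image (shr ε)) (sl (shr ε z.1) (shr ε z.2)) (shr ε z.1) = j := by
        rw [← h4]
        unfold abv left
        rw [Finset.filter_image, Finset.card_image_of_injective _ (shr_inj ε)]
        congr 1
        apply Finset.filter_congr
        intro x _
        rw [above_iff h5, cr_shr]
      rw [hcard, h7] at h6
      show bel (S.image (shr ε)) (sl (shr ε z.1) (shr ε z.2)) (shr ε z.1) = #S - 2 - j
      omega
    · intro z _ z' _ h5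
      simp only [Prod.mk.injEq] at h5
      exact Prod.ext (shr_inj ε h5.1) (shr_inj ε h5.2)
  have h2 : #((pairs S j S S).filter (fun z => ¬ (shr ε z.1).1 < (shr ε z.2).1)) ≤
      #(kes (S.image (shr ε)) j) := by
    refine Finset.card_le_card_of_injOn (fun z => (shr ε z.2, shr ε z.1)) ?_ ?_
    · intro z hz
      rw [mem_coe, mem_filter, mem_pairs] at hz
      obtain ⟨⟨⟨h1, h2⟩, h3, h4⟩, h5⟩ := hz
      have hx := mem_image_of_mem (shr ε) h1
      have hy := mem_image_of_mem (shr ε) h2
      have h6 : (shr ε z.2).1 < (shr ε z.1).1 := by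
        refine lt_of_le_of_ne (not_lt.mp h5) ?_
        intro h7
        exact h3 (hε z.1 h1 z.2 h2 h7.symm)
      rw [mem_coe, mem_kes]
      refine ⟨hy, hx, h6, ?_⟩
      rw [← h4]
      unfold bel left
      rw [Finset.filter_image, Finset.card_image_of_injective _ (shr_inj ε)]
      congr 1
      apply Finset.filter_congr
      intro x _
      rw [below_iff h6, cr_shr, cr_swap z.1 z.2 x]
      constructor <;> intro h <;> linarith
    · intro z _ z' _ h5
      simp only [Prod.mk.injEq] at h5
      exact Prod.ext (shr_inj ε h5.2) (shr_inj ε h5.1)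
  have h3 := Finset.card_filter_add_card_filter_not (s := pairs S j S S)
    (fun z => (shr ε z.1).1 < (shr ε z.2).1)
  have h4 := bound_small hGP (#S - 2 - j) le_rfl
  have h5 := bound_small hGP j le_rfl
  rw [hcard] at h4 h5
  have h6 : (#(pairs S j S S) : ℝ) ≤ #(kes (S.image (shr ε)) (#S - 2 - j)) +
      #(kes (S.image (shr ε)) j) := by
    rw [← h3]
    exact_mod_cast Nat.add_le_add h1 h2
  linarith

/-! ### uniform trees -/

/-- `UniformTree [b₁, …, b_r] A`: for `r = 0`, `A` is a single point; for `r ≥ 1`, `A` is the disjoint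
union of `b₁` clusters `A i` of `A` with `UniformTree [b₂, …, b_r] (A i)`. -/
inductive UniformTree : List ℕ → Finset (ℝ × ℝ) → Prop
  | leaf (p : ℝ × ℝ) : UniformTree [] {p}
  | node (m : ℕ) (l : List ℕ) (A : Fin m → Finset (ℝ × ℝ))
      (hA : ∀ i, IsCluster (Finset.univ.biUnion A) (A i))
      (hd : ∀ i j, i ≠ j → Disjoint (A i) (A j)) (ht : ∀ i, UniformTree l (A i)) :
      UniformTree (m :: l) (Finset.univ.biUnion A)

lemma UniformTree.card {l : List ℕ} {A : Finset (ℝ × ℝ)} (h : UniformTree l A) :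
    #A = l.prod := by
  induction h with
  | leaf p => simp
  | node m l A hA hd ht ih =>
    rw [Finset.card_biUnion (fun i _ j _ hij => hd i j hij), List.prod_cons,
      Finset.sum_congr rfl (fun i _ => ih i)]
    simp

lemma gen_mono {P Q : Finset (ℝ × ℝ)} (hP : Gen P) (h : Q ⊆ P) : Gen Q :=
  fun p hp q hq x hx => hP p (h hp) q (h hq) x (h hx)

/-- the bound for uniform trees; `G b` bounds the number of ordered pairs for `b` points -/
theorem uniform_bound {G : ℕ → ℝ}
    (hG : ∀ S : Finset (ℝ × ℝ), Gen S → ∀ j, (#(pairs S j S S) : ℝ) ≤ G #S)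
    {l : List ℕ} {P : Finset (ℝ × ℝ)} (h : UniformTree l P) (hP : Gen P) (k : ℕ) :
    (#(pairs P k P P) : ℝ) ≤ #P * (l.map (fun b => G b / b)).sum := by
  classical
  induction h generalizing k with
  | leaf p =>
    have h0 : pairs {p} k {p} {p} = ∅ := by
      rw [Finset.eq_empty_iff_forall_notMem]
      intro z hz
      rw [mem_pairs, mem_singleton, mem_singleton] at hz
      exact hz.2.1 (hz.1.1.trans hz.1.2.symm)
    rw [h0]
    simp
  | node m l A hA hd ht ih =>
    rcases Nat.eq_zero_or_pos m with hm0 | hm0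
    · subst hm0
      have h0 : pairs (Finset.univ.biUnion A) k (Finset.univ.biUnion A)
          (Finset.univ.biUnion A) = ∅ := by
        rw [Finset.eq_empty_iff_forall_notMem]
        intro z hz
        rw [mem_pairs] at hz
        simp at hz
      rw [h0]
      simp
    rcases Nat.eq_zero_or_pos l.prod with hl0 | hl0
    · have hc : #(Finset.univ.biUnion A) = 0 := by
        rw [(UniformTree.node m l A hA hd ht).card, List.prod_cons, hl0, mul_zero]
      have h0 : pairs (Finset.univ.biUnion A) k (Finset.univ.biUnion A)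
          (Finset.univ.biUnion A) = ∅ := by
        rw [Finset.card_eq_zero] at hc
        rw [Finset.eq_empty_iff_forall_notMem]
        intro z hz
        rw [mem_pairs, hc] at hz
        exact absurd hz.1.1 (notMem_empty _)
      rw [h0, hc]
      simp
    have hne : ∀ i, (A i).Nonempty := fun i => Finset.card_pos.mp (by rw [(ht i).card]; exact hl0)
    choose s hs using hne
    have hpart : Part A s l.prod := ⟨hP, hA, hd, fun i => (ht i).card, hs⟩
    -- the bound for the representatives
    have hS : Gen (Finset.univ.image s) := by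
      refine gen_mono hP ?_
      intro x hx
      obtain ⟨i, -, rfl⟩ := mem_image.mp hx
      exact hpart.memU (hs i)
    have hScard : #(Finset.univ.image s) = m := by
      rw [Finset.card_image_of_injective _ hpart.inj, card_univ, Fintype.card_fin]
    have hGm : ∀ j, (#(pairs (Finset.univ.image s) j (Finset.univ.image s)
        (Finset.univ.image s)) : ℝ) ≤ G m := by
      intro j
      have := hG _ hS j
      rwa [hScard] at this
    have hG0 : 0 ≤ G m := (Nat.cast_nonneg _).trans (hGm 0)
    have hstep := hpart.step k ⌊G m⌋₊ (fun j => Nat.le_floor (hGm j))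
    have h1 : (#(pairs (Finset.univ.biUnion A) k (Finset.univ.biUnion A)
        (Finset.univ.biUnion A)) : ℝ) ≤
        ∑ i, (#(pairs (A i) (k % l.prod) (A i) (A i)) : ℝ) + l.prod * G m := by
      have h2 : (#(pairs (Finset.univ.biUnion A) k (Finset.univ.biUnion A)
        (Finset.univ.biUnion A)) : ℝ) ≤
        ∑ i, (#(pairs (A i) (k % l.prod) (A i) (A i)) : ℝ) + l.prod * ⌊G m⌋₊ := by
        exact_mod_cast hstep
      have h3 := Nat.floor_le hG0
      have h4 : (l.prod : ℝ) * ⌊G m⌋₊ ≤ l.prod * G m :=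
        mul_le_mul_of_nonneg_left h3 (Nat.cast_nonneg _)
      linarith
    have h2 : ∑ i, (#(pairs (A i) (k % l.prod) (A i) (A i)) : ℝ) ≤
        ∑ _i : Fin m, (l.prod : ℝ) * (l.map (fun b => G b / b)).sum := by
      refine Finset.sum_le_sum fun i _ => ?_
      have h3 := ih i (gen_mono hP (hA i).1) (k % l.prod)
      rw [(ht i).card] at h3
      exact h3
    rw [Finset.sum_const, card_univ, Fintype.card_fin, nsmul_eq_mul] at h2
    have hcard : (#(Finset.univ.biUnion A) : ℝ) = m * l.prod := by
      rw [(UniformTree.node m l A hA hd ht).card, List.prod_cons]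
      push_cast
      ring
    rw [hcard, List.map_cons, List.sum_cons]
    have hm : (0 : ℝ) < m := by exact_mod_cast hm0
    have h3 : (m : ℝ) * l.prod * (G m / m) = l.prod * G m := by field_simp
    nlinarith

end Pool.Agent.K7.H30.CT
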