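import Pool.Agent.K7.H30.CT.Equal

/-!
# Partitions into clusters of equal size: the bounds
-/

set_option autoImplicit false

namespace Pool.Agent.K7.H30.CT

open Finset
open Pool.Agent.W296.HL (cr cr_swap Gen)
open Pool.Agent.R117.KR (IsKLine IsBisector Line kline_finite)

lemma cr_line {x y : ℝ × ℝ} (hxy : x ≠ y) :
    (-(y.2 - x.2) ≠ 0 ∨ y.1 - x.1 ≠ 0) ∧
      {z | cr x y z = 0} = Line (-(y.2 - x.2)) (y.1 - x.1)
        (-(y.2 - x.2) * x.1 + (y.1 - x.1) * x.2) := by
  constructor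
  · by_contra hcon
    push Not at hcon
    exact hxy (Prod.ext (by linarith [hcon.2]) (by linarith [hcon.1]))
  · ext z
    simp only [Line, Set.mem_ofPred_eq]
    unfold cr
    constructor <;> intro h <;> linarith

open scoped Classical in
/-- every ordered pair gives a line, and every line is obtained from at most two pairs -/
lemma pairs_le_two (S : Finset (ℝ × ℝ)) (hS : Gen S) (j : ℕ) :
    #(pairs S j S S) ≤ 2 * {L | IsKLine S j L}.ncard := by
  have hfin := kline_finite S j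
  set T := hfin.toFinset with hT
  rw [Set.ncard_eq_toFinset_card _ hfin, ← hT]
  have hmaps : ∀ z ∈ pairs S j S S, {x | cr z.1 z.2 x = 0} ∈ T := by
    intro z hz
    rw [mem_pairs] at hz
    obtain ⟨⟨h1, h2⟩, h3, h4⟩ := hz
    rw [hT, Set.Finite.mem_toFinset]
    obtain ⟨h5, h6⟩ := cr_line h3
    refine ⟨_, _, _, h5, h6, ⟨z.1, h1, z.2, h2, h3, ?_, ?_⟩, ?_⟩
    · exact cr_self_left _ _
    · exact cr_self_right _ _
    · rw [← h4]
      unfold left
      congr 1
      apply Finset.filter_congr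
      intro x _
      unfold cr
      constructor <;> intro h <;> linarith
  have h := Finset.card_le_mul_card_image_of_maps_to hmaps 2 (by
    intro L _
    by_contra hcon
    push Not at hcon
    obtain ⟨a, b, c, ha, hb, hc, hab, hac, hbc⟩ := Finset.two_lt_card_iff.mp hcon
    rw [mem_filter, mem_pairs] at ha hb hc
    have key : ∀ {u v : (ℝ × ℝ) × (ℝ × ℝ)}, ((u.1 ∈ S ∧ u.2 ∈ S) ∧ u.1 ≠ u.2 ∧
        left S u.1 u.2 = j) ∧ {x | cr u.1 u.2 x = 0} = L → ((v.1 ∈ S ∧ v.2 ∈ S) ∧ v.1 ≠ v.2 ∧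
        left S v.1 v.2 = j) ∧ {x | cr v.1 v.2 x = 0} = L → v = u ∨ v = u.swap := by
      intro u v hu hv
      have h1 : v.1 = u.1 ∨ v.1 = u.2 := by
        by_contra h
        push Not at h
        have h2 : cr u.1 u.2 v.1 = 0 := by
          have : v.1 ∈ {x | cr u.1 u.2 x = 0} := by
            rw [hu.2, ← hv.2]
            exact cr_self_left _ _
          exact this
        exact hS _ hu.1.1.1 _ hu.1.1.2 _ hv.1.1.1 hu.1.2.1 h.1.symm h.2.symm h2
      have h2 : v.2 = u.1 ∨ v.2 = u.2 := by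
        by_contra h
        push Not at h
        have h2 : cr u.1 u.2 v.2 = 0 := by
          have : v.2 ∈ {x | cr u.1 u.2 x = 0} := by
            rw [hu.2, ← hv.2]
            exact cr_self_right _ _
          exact this
        exact hS _ hu.1.1.1 _ hu.1.1.2 _ hv.1.1.2 hu.1.2.1 h.1.symm h.2.symm h2
      rcases h1 with h1 | h1 <;> rcases h2 with h2 | h2
      · exact absurd (h1.trans h2.symm) hv.1.2.1
      · exact Or.inl (Prod.ext h1 h2)
      · exact Or.inr (Prod.ext h1 h2)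
      · exact absurd (h1.trans h2.symm) hv.1.2.1
    rcases key ha hb with h1 | h1
    · exact hab h1.symm
    · rcases key ha hc with h2 | h2
      · exact hac h2.symm
      · exact hbc (h1.trans h2.symm))
  exact h

/-- uniform trees, relative form -/
theorem uniform_rel {G : ℕ → ℝ}
    (hG : ∀ S : Finset (ℝ × ℝ), Gen S → ∀ j, ({L | IsKLine S j L}.ncard : ℝ) ≤ G #S)
    {l : List ℕ} {P : Finset (ℝ × ℝ)} (h : UniformTree l P) (hP : Gen P) (k : ℕ) :
    (#(pairs P k P P) : ℝ) ≤ 2 * (#P * (l.map (fun b => G b / b)).sum) := by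
  have h1 := uniform_bound (G := fun b => 2 * G b) (fun S hS j => by
    have h2 : (#(pairs S j S S) : ℝ) ≤ 2 * {L | IsKLine S j L}.ncard := by
      exact_mod_cast pairs_le_two S hS j
    have h3 := hG S hS j
    linarith) h hP k
  have h2 : (l.map (fun b : ℕ => 2 * G b / b)) = (l.map (fun b : ℕ => 2 * (G b / b))) := by
    apply List.map_congr_left
    intro b _
    rw [mul_div_assoc]
  rw [h2, List.sum_map_mul_left] at h1
  linarith

lemma dey_div (b : ℕ) : 14 * (b : ℝ) ^ (4 / 3 : ℝ) / b = 14 * (b : ℝ) ^ (1 / 3 : ℝ) := by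
  rcases Nat.eq_zero_or_pos b with h0 | h0
  · subst h0
    rw [Nat.cast_zero, Real.zero_rpow (by norm_num), Real.zero_rpow (by norm_num)]
    simp
  · have hb : (0 : ℝ) < b := by exact_mod_cast h0
    rw [show (4 / 3 : ℝ) = 1 + 1 / 3 by norm_num, Real.rpow_add hb, Real.rpow_one]
    field_simp

/-- uniform trees, with Dey's bound for the nodes -/
theorem uniform_num {l : List ℕ} {P : Finset (ℝ × ℝ)} (h : UniformTree l P) (hP : Gen P)
    (k : ℕ) :
    (#(pairs P k P P) : ℝ) ≤ 14 * (#P * (l.map (fun b : ℕ => (b : ℝ) ^ (1 / 3 : ℝ))).sum) := by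
  have h1 := uniform_bound (G := fun b => 14 * (b : ℝ) ^ (4 / 3 : ℝ))
    (fun S hS j => pairs_le_dey hS j) h hP k
  have h2 : (l.map (fun b : ℕ => 14 * (b : ℝ) ^ (4 / 3 : ℝ) / b)) =
      (l.map (fun b : ℕ => 14 * (b : ℝ) ^ (1 / 3 : ℝ))) := by
    apply List.map_congr_left
    intro b _
    exact dey_div b
  rw [h2, List.sum_map_mul_left] at h1
  linarith

open scoped Classical in
/-- `m` clusters of `w` points each -/
theorem two_level {m w : ℕ} {P : Finset (ℝ × ℝ)} (hP : Gen P) (A : Fin m → Finset (ℝ × ℝ))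
    (hA : ∀ i, IsCluster P (A i)) (hd : ∀ i j, i ≠ j → Disjoint (A i) (A j))
    (hw : ∀ i, #(A i) = w) (hU : ∀ p ∈ P, ∃ i, p ∈ A i) (k : ℕ) :
    (#(pairs P k P P) : ℝ) ≤ 14 * (#P * ((m : ℝ) ^ (1 / 3 : ℝ) + (w : ℝ) ^ (1 / 3 : ℝ))) := by
  have hPU : P = Finset.univ.biUnion A := by
    apply Finset.Subset.antisymm
    · intro p hp
      obtain ⟨i, hi⟩ := hU p hp
      exact mem_biUnion.mpr ⟨i, mem_univ _, hi⟩
    · intro p hp
      obtain ⟨i, -, hi⟩ := mem_biUnion.mp hp
      exact (hA i).1 hi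
  have hcard : (#P : ℝ) = m * w := by
    rw [hPU, Finset.card_biUnion (fun i _ j _ hij => hd i j hij),
      Finset.sum_congr rfl (fun i _ => hw i)]
    simp
  have h43 : ∀ x : ℝ, 0 ≤ x → x ^ (4 / 3 : ℝ) = x * x ^ (1 / 3 : ℝ) := by
    intro x hx
    rcases hx.eq_or_lt with h0 | h0
    · rw [← h0, Real.zero_rpow (by norm_num)]
      simp
    · rw [show (4 / 3 : ℝ) = 1 + 1 / 3 by norm_num, Real.rpow_add h0, Real.rpow_one]
  rcases Nat.eq_zero_or_pos w with hw0 | hw0
  · have h0 : P = ∅ := by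
      rw [Finset.eq_empty_iff_forall_notMem]
      intro p hp
      obtain ⟨i, hi⟩ := hU p hp
      have := hw i
      rw [hw0, Finset.card_eq_zero] at this
      rw [this] at hi
      exact absurd hi (notMem_empty _)
    have h1 : pairs P k P P = ∅ := by
      rw [Finset.eq_empty_iff_forall_notMem]
      intro z hz
      rw [mem_pairs, h0] at hz
      exact absurd hz.1.1 (notMem_empty _)
    rw [h1, h0]
    simp
  have hne : ∀ i, (A i).Nonempty := fun i => Finset.card_pos.mp (by rw [hw i]; exact hw0)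
  choose s hs using hne
  have hpart : Part A s w := by
    rw [hPU] at hP hA
    exact ⟨hP, hA, hd, hw, hs⟩
  have hS : Gen (Finset.univ.image s) := by
    refine gen_mono hP ?_
    intro x hx
    obtain ⟨i, -, rfl⟩ := mem_image.mp hx
    exact (hA i).1 (hs i)
  have hScard : #(Finset.univ.image s) = m := by
    rw [Finset.card_image_of_injective _ hpart.inj, card_univ, Fintype.card_fin]
  have hGm : ∀ j, (#(pairs (Finset.univ.image s) j (Finset.univ.image s)
      (Finset.univ.image s)) : ℝ) ≤ 14 * (m : ℝ) ^ (4 / 3 : ℝ) := by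
    intro j
    have := pairs_le_dey hS j
    rwa [hScard] at this
  have hG0 : 0 ≤ 14 * (m : ℝ) ^ (4 / 3 : ℝ) := by positivity
  have hstep := hpart.step k ⌊14 * (m : ℝ) ^ (4 / 3 : ℝ)⌋₊ (fun j => Nat.le_floor (hGm j))
  rw [← hPU] at hstep
  have h2 : (#(pairs P k P P) : ℝ) ≤
      ∑ i, (#(pairs (A i) (k % w) (A i) (A i)) : ℝ) + w * ⌊14 * (m : ℝ) ^ (4 / 3 : ℝ)⌋₊ := by
    exact_mod_cast hstep
  have h3 := Nat.floor_le hG0
  have h4 : (w : ℝ) * ⌊14 * (m : ℝ) ^ (4 / 3 : ℝ)⌋₊ ≤ w * (14 * (m : ℝ) ^ (4 / 3 : ℝ)) :=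
    mul_le_mul_of_nonneg_left h3 (Nat.cast_nonneg _)
  have h5 : ∑ i, (#(pairs (A i) (k % w) (A i) (A i)) : ℝ) ≤
      ∑ _i : Fin m, 14 * (w : ℝ) ^ (4 / 3 : ℝ) := by
    refine Finset.sum_le_sum fun i _ => ?_
    have h6 := pairs_le_dey (gen_mono hP (hA i).1) (k % w)
    rw [hw i] at h6
    exact h6
  rw [Finset.sum_const, card_univ, Fintype.card_fin, nsmul_eq_mul, h43 w (Nat.cast_nonneg _)] at h5
  rw [h43 m (Nat.cast_nonneg _)] at h2 h4
  rw [hcard]
  nlinarith

end Pool.Agent.K7.H30.CT
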