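import Pool.Agent.K7.H30.CT.Cluster
import Pool.Agent.K7.H30.HB.Geom

/-!
# From lines to ordered pairs
-/

set_option autoImplicit false

namespace Pool.Agent.K7.H30.CT

open Finset
open Pool.Agent.W296.HL (cr cr_swap Gen)
open Pool.Agent.R117.KR (IsKLine IsBisector Line two_mul_le kline_finite)
open Pool.Agent.K7.H30.HB (line_cr)

variable {P : Finset (ℝ × ℝ)} {k : ℕ}

open scoped Classical in
lemma sides {a b c : ℝ} (hab : a ≠ 0 ∨ b ≠ 0) {p q : ℝ × ℝ} (hpq : p ≠ q)
    (hp : p ∈ Line a b c) (hq : q ∈ Line a b c) (P : Finset (ℝ × ℝ)) :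
    Line a b c = {z | cr p q z = 0} ∧
      ((#{z ∈ P | c < a * z.1 + b * z.2} = left P p q ∧
        #{z ∈ P | a * z.1 + b * z.2 < c} = left P q p) ∨
      (#{z ∈ P | c < a * z.1 + b * z.2} = left P q p ∧
        #{z ∈ P | a * z.1 + b * z.2 < c} = left P p q)) := by
  obtain ⟨lam, hlam0, hlam⟩ := line_cr hab hpq hp hq
  constructor
  · ext x
    have h := hlam x
    show a * x.1 + b * x.2 = c ↔ cr p q x = 0
    constructor
    · intro h1
      have h2 : lam * cr p q x = 0 := by linarith
      exact (mul_eq_zero.mp h2).resolve_left hlam0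
    · intro h1
      rw [h1, mul_zero] at h
      linarith
  · unfold left
    rcases lt_or_gt_of_ne hlam0 with hl | hl
    · right
      constructor
      · congr 1
        apply Finset.filter_congr
        intro x _
        rw [cr_swap]
        have h := hlam x
        constructor
        · intro h1
          by_contra h2
          have := mul_nonpos_of_nonpos_of_nonneg hl.le (show 0 ≤ cr p q x by linarith)
          linarith
        · intro h1
          have := mul_pos_of_neg_of_neg hl (show cr p q x < 0 by linarith)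
          linarith
      · congr 1
        apply Finset.filter_congr
        intro x _
        have h := hlam x
        constructor
        · intro h1
          by_contra h2
          have := mul_nonneg_of_nonpos_of_nonpos hl.le (not_lt.mp h2)
          linarith
        · intro h1
          have := mul_neg_of_neg_of_pos hl h1
          linarith
    · left
      constructor
      · congr 1
        apply Finset.filter_congr
        intro x _
        have h := hlam x
        constructor
        · intro h1
          by_contra h2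
          have := mul_nonpos_of_nonneg_of_nonpos hl.le (not_lt.mp h2)
          linarith
        · intro h1
          have := mul_pos hl h1
          linarith
      · congr 1
        apply Finset.filter_congr
        intro x _
        rw [cr_swap]
        have h := hlam x
        constructor
        · intro h1
          by_contra h2
          have := mul_nonneg hl.le (show 0 ≤ cr p q x by linarith)
          linarith
        · intro h1
          have := mul_neg_of_pos_of_neg hl (show cr p q x < 0 by linarith)
          linarith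

open scoped Classical in
lemma kline_le_pairs (P : Finset (ℝ × ℝ)) (k : ℕ) :
    {L | IsKLine P k L}.ncard ≤ #(pairs P k P P) := by
  have hex : ∀ L : Set (ℝ × ℝ), ∃ z : (ℝ × ℝ) × (ℝ × ℝ), IsKLine P k L →
      z ∈ pairs P k P P ∧ L = {x | cr z.1 z.2 x = 0} := by
    intro L
    by_cases hL : IsKLine P k L
    · obtain ⟨a, b, c, hab, rfl, ⟨p, hp, q, hq, hpq, hpL, hqL⟩, hk⟩ := hL
      obtain ⟨h1, h2⟩ := sides hab hpq hpL hqL P
      rcases h2 with h2 | h2
      · refine ⟨(p, q), fun _ => ⟨mem_pairs.mpr ⟨⟨hp, hq⟩, hpq, ?_⟩, h1⟩⟩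
        rw [← h2.1]; exact hk
      · refine ⟨(q, p), fun _ => ⟨mem_pairs.mpr ⟨⟨hq, hp⟩, hpq.symm, ?_⟩, ?_⟩⟩
        · rw [← h2.1]; exact hk
        · rw [h1]
          ext x
          show cr p q x = 0 ↔ cr q p x = 0
          rw [cr_swap p q x, neg_eq_zero]
    · exact ⟨((0, 0), (0, 0)), fun h => absurd h hL⟩
  choose z hz using hex
  rw [← Set.ncard_coe_finset]
  refine Set.ncard_le_ncard_of_injOn z (fun L hL => mem_coe.mpr (hz L hL).1) ?_
    (Finset.finite_toSet _)
  intro L hL L' hL' h
  rw [(hz L hL).2, (hz L' hL').2, h]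

open scoped Classical in
lemma bisector_le_pairs (P : Finset (ℝ × ℝ)) :
    2 * {L | IsBisector P L}.ncard ≤ #(pairs P (#P / 2 - 1) P P) := by
  have hex : ∀ L : Set (ℝ × ℝ), ∃ z : (ℝ × ℝ) × (ℝ × ℝ), IsBisector P L →
      (z ∈ pairs P (#P / 2 - 1) P P ∧ z.swap ∈ pairs P (#P / 2 - 1) P P ∧ z.1 ≠ z.2) ∧
        L = {x | cr z.1 z.2 x = 0} := by
    intro L
    by_cases hL : IsBisector P L
    · obtain ⟨a, b, c, hab, rfl, ⟨p, hp, q, hq, hpq, hpL, hqL⟩, hk1, hk2⟩ := hL
      obtain ⟨h1, h2⟩ := sides hab hpq hpL hqL P
      refine ⟨(p, q), fun _ => ⟨⟨mem_pairs.mpr ⟨⟨hp, hq⟩, hpq, ?_⟩,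
        mem_pairs.mpr ⟨⟨hq, hp⟩, hpq.symm, ?_⟩, hpq⟩, h1⟩⟩
      · rcases h2 with h2 | h2
        · rw [← h2.1]; exact hk2
        · rw [← h2.2]; exact hk1
      · rcases h2 with h2 | h2
        · show left P q p = _
          rw [← h2.2]; exact hk1
        · show left P q p = _
          rw [← h2.1]; exact hk2
    · exact ⟨((0, 0), (0, 0)), fun h => absurd h hL⟩
  choose z hz using hex
  refine two_mul_le {L | IsBisector P L} (pairs P (#P / 2 - 1) P P) z
    (fun L hL => (hz L hL).1) ?_
  intro L hL L' hL' h
  rw [(hz L hL).2, (hz L' hL').2]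
  rcases h with h | h
  · rw [h]
  · rw [h]
    ext x
    show cr (z L').2 (z L').1 x = 0 ↔ cr (z L').1 (z L').2 x = 0
    rw [cr_swap (z L').1 (z L').2 x, neg_eq_zero]

end Pool.Agent.K7.H30.CT
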