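import Pool.Agent.K7.H30.CT.Equal

/-!
# Edges between clusters of arbitrary sizes
-/

set_option autoImplicit false

namespace Pool.Agent.K7.H30.CT

open Finset Pool.Agent.TH124.KE
open Pool.Agent.W296.HL (cr cr_swap Gen)

lemma cr_ev {e : Seg} (he : e.1.1 < e.2.1) (z : ℝ × ℝ) :
    cr e.1 e.2 z = (e.2.1 - e.1.1) * (z.2 - ev e z.1) := by
  have h0 : e.2.1 - e.1.1 ≠ 0 := by linarith
  have h1 : ss e * (e.2.1 - e.1.1) = e.2.2 - e.1.2 := by
    unfold ss sl; field_simp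
  unfold cr ev
  linear_combination (z.1 - e.1.1) * h1

lemma cr_of_Cr {e f : Seg} (he : e.1.1 < e.2.1) (hf : f.1.1 < f.2.1) (h : Cr e f) :
    cr e.1 e.2 f.1 * cr e.1 e.2 f.2 < 0 := by
  obtain ⟨hs, x, h1, h2, h3, h4, h5⟩ := h
  rw [cr_ev he, cr_ev he]
  have a1 := ev_sub f f.1.1 x
  have a2 := ev_sub e f.1.1 x
  have a3 := ev_sub f f.2.1 x
  have a4 := ev_sub e f.2.1 x
  rw [ev_left] at a1
  rw [ev_right hf] at a3
  have b1 : f.1.2 - ev e f.1.1 = (ss f - ss e) * (f.1.1 - x) := by linarith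
  have b2 : f.2.2 - ev e f.2.1 = (ss f - ss e) * (f.2.1 - x) := by linarith
  rw [b1, b2]
  have c1 : 0 < (ss f - ss e) ^ 2 := by
    have : ss f - ss e ≠ 0 := sub_ne_zero.mpr hs.symm
    positivity
  have c2 : (f.1.1 - x) * (f.2.1 - x) < 0 := mul_neg_of_neg_of_pos (by linarith) (by linarith)
  have c3 : 0 < (e.2.1 - e.1.1) ^ 2 := by
    have : 0 < e.2.1 - e.1.1 := by linarith
    positivity
  have c4 : (e.2.1 - e.1.1) * ((ss f - ss e) * (f.1.1 - x)) *
      ((e.2.1 - e.1.1) * ((ss f - ss e) * (f.2.1 - x))) =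
      ((e.2.1 - e.1.1) ^ 2 * (ss f - ss e) ^ 2) * ((f.1.1 - x) * (f.2.1 - x)) := by ring
  rw [c4]
  exact mul_neg_of_pos_of_neg (mul_pos c3 c1) c2

lemma Cr_of_cr {e f : Seg} (he : e.1.1 < e.2.1) (hf : f.1.1 < f.2.1)
    (h1 : cr e.1 e.2 f.1 * cr e.1 e.2 f.2 < 0) (h2 : cr f.1 f.2 e.1 * cr f.1 f.2 e.2 < 0) :
    Cr e f := by
  rw [cr_ev he, cr_ev he] at h1
  rw [cr_ev hf, cr_ev hf] at h2
  set σ := ss f - ss e with hσ
  have a1 := ev_sub f f.2.1 f.1.1
  have a2 := ev_sub e f.2.1 f.1.1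
  rw [ev_left, ev_right hf] at a1
  have hσ0 : σ ≠ 0 := by
    intro h0
    have h3 : ss f = ss e := by linarith
    have h4 : f.1.2 - ev e f.1.1 = f.2.2 - ev e f.2.1 := by
      rw [h3] at a1
      linarith
    rw [h4] at h1
    have : 0 ≤ (e.2.1 - e.1.1) * (f.2.2 - ev e f.2.1) *
        ((e.2.1 - e.1.1) * (f.2.2 - ev e f.2.1)) := mul_self_nonneg _
    linarith
  set x := f.1.1 - (f.1.2 - ev e f.1.1) / σ with hx
  have hx1 : σ * (f.1.1 - x) = f.1.2 - ev e f.1.1 := by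
    rw [hx]; field_simp; ring
  have hDx : ∀ z, ev f z - ev e z = σ * (z - x) := by
    intro z
    have b1 := ev_sub f z f.1.1
    have b2 := ev_sub e z f.1.1
    rw [ev_left] at b1
    have : σ * (z - x) = σ * (f.1.1 - x) + (ss f - ss e) * (z - f.1.1) := by rw [← hσ]; ring
    rw [this, hx1]
    linarith
  have d1 := hDx f.1.1
  have d2 := hDx f.2.1
  have d3 := hDx e.1.1
  have d4 := hDx e.2.1
  rw [ev_left] at d1
  rw [ev_right hf] at d2
  rw [ev_left] at d3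
  rw [ev_right he] at d4
  have hσ2 : 0 < σ ^ 2 := by positivity
  have he2 : 0 < (e.2.1 - e.1.1) ^ 2 := by
    have : 0 < e.2.1 - e.1.1 := by linarith
    positivity
  have hf2 : 0 < (f.2.1 - f.1.1) ^ 2 := by
    have : 0 < f.2.1 - f.1.1 := by linarith
    positivity
  have e1 : (f.1.1 - x) * (f.2.1 - x) < 0 := by
    rw [d1, d2] at h1
    have h3 : (e.2.1 - e.1.1) * (σ * (f.1.1 - x)) * ((e.2.1 - e.1.1) * (σ * (f.2.1 - x))) =
        ((e.2.1 - e.1.1) ^ 2 * σ ^ 2) * ((f.1.1 - x) * (f.2.1 - x)) := by ring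
    rw [h3] at h1
    by_contra hcon
    have := mul_nonneg (mul_pos he2 hσ2).le (not_lt.mp hcon)
    linarith
  have e2 : (e.1.1 - x) * (e.2.1 - x) < 0 := by
    have h4 : e.1.2 - ev f e.1.1 = - (σ * (e.1.1 - x)) := by linarith
    have h5 : e.2.2 - ev f e.2.1 = - (σ * (e.2.1 - x)) := by linarith
    rw [h4, h5] at h2
    have h3 : (f.2.1 - f.1.1) * -(σ * (e.1.1 - x)) * ((f.2.1 - f.1.1) * -(σ * (e.2.1 - x))) =
        ((f.2.1 - f.1.1) ^ 2 * σ ^ 2) * ((e.1.1 - x) * (e.2.1 - x)) := by ring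
    rw [h3] at h2
    by_contra hcon
    have := mul_nonneg (mul_pos hf2 hσ2).le (not_lt.mp hcon)
    linarith
  have key : ∀ {a b : ℝ}, a < b → (a - x) * (b - x) < 0 → a < x ∧ x < b := by
    intro a b hab h
    constructor
    · by_contra hcon
      push Not at hcon
      have := mul_nonneg (show 0 ≤ a - x by linarith) (show 0 ≤ b - x by linarith)
      linarith
    · by_contra hcon
      push Not at hcon
      have := mul_nonneg_of_nonpos_of_nonpos (show a - x ≤ 0 by linarith)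
        (show b - x ≤ 0 by linarith)
      linarith
  obtain ⟨k1, k2⟩ := key he e2
  obtain ⟨k3, k4⟩ := key hf e1
  have k5 := hDx x
  rw [sub_self, mul_zero] at k5
  exact ⟨fun hc => hσ0 (by rw [hσ, hc]; ring), x, k1, k2, k3, k4, by linarith⟩

lemma gen_of_GP {P : Finset (ℝ × ℝ)} (hP : GP P) : Gen P := by
  intro p hp q hq r hr hpq hpr hqr h
  have h1 := hP.ne1 hp hq hpq
  have h2 := hP.ne1 hp hr hpr
  have h3 : q.1 - p.1 ≠ 0 := sub_ne_zero.mpr h1.symm
  have h4 : r.1 - p.1 ≠ 0 := sub_ne_zero.mpr h2.symm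
  apply hP.col p hp q hq r hr hpq hpr hqr
  unfold sl
  rw [div_eq_div_iff h3 h4]
  unfold cr at h
  linarith

lemma mul_neg_iff' {a b : ℝ} (ha : a ≠ 0) (hb : b ≠ 0) : a * b < 0 ↔ ¬ (0 < a ↔ 0 < b) := by
  rcases lt_or_gt_of_ne ha with h1 | h1 <;> rcases lt_or_gt_of_ne hb with h2 | h2
  · have := mul_pos_of_neg_of_neg h1 h2
    have n1 := not_lt.mpr h1.le
    have n2 := not_lt.mpr h2.le
    have n3 := not_lt.mpr this.le
    tauto
  · have := mul_neg_of_neg_of_pos h1 h2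
    have n1 := not_lt.mpr h1.le
    tauto
  · have := mul_neg_of_pos_of_neg h1 h2
    have n2 := not_lt.mpr h2.le
    tauto
  · have := mul_pos h1 h2
    have n3 := not_lt.mpr this.le
    tauto

/-- the geometric sum -/
lemma geom_min {ρ u : ℝ} (hρ : 5 / 4 ≤ ρ) (hu : 0 < u) (L : ℕ) :
    ∑ a ∈ range L, min (ρ ^ a / u) (u / ρ ^ a) ≤ 10 := by
  have hρ0 : 0 < ρ := by linarith
  have key : ∀ L : ℕ, (ρ ^ L < u → ∑ a ∈ range L, min (ρ ^ a / u) (u / ρ ^ a) ≤ 4 * (ρ ^ L / u)) ∧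
      (u ≤ ρ ^ L → ∑ a ∈ range L, min (ρ ^ a / u) (u / ρ ^ a) ≤ 10 - 5 * (u / ρ ^ L)) := by
    intro L
    induction L with
    | zero =>
      constructor
      · intro _
        simp
        positivity
      · intro h
        simp only [pow_zero, range_zero, sum_empty, div_one] at h ⊢
        linarith
    | succ L ih =>
      have hp : 0 < ρ ^ L := by positivity
      have hp1 : ρ ^ (L + 1) = ρ ^ L * ρ := pow_succ _ _
      rw [Finset.sum_range_succ]
      have hm1 := min_le_left (ρ ^ L / u) (u / ρ ^ L)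
      have hm2 := min_le_right (ρ ^ L / u) (u / ρ ^ L)
      have hq : ρ ^ (L + 1) / u = ρ * (ρ ^ L / u) := by rw [hp1]; ring
      have hq2 : u / ρ ^ (L + 1) = (u / ρ ^ L) / ρ := by rw [hp1]; field_simp
      constructor
      · intro h
        have h1 : ρ ^ L < u := by nlinarith
        have h2 := ih.1 h1
        rw [hq]
        have h3 : 0 < ρ ^ L / u := by positivity
        nlinarith
      · intro h
        rcases lt_or_ge (ρ ^ L) u with h1 | h1
        · have h2 := ih.1 h1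
          have h3 : ρ ^ L / u ≤ 1 := by rw [div_le_one hu]; exact h1.le
          have h4 : u / ρ ^ (L + 1) ≤ 1 := by rw [div_le_one (by positivity)]; exact h
          linarith
        · have h2 := ih.2 h1
          have h3 : 0 < u / ρ ^ L := by positivity
          rw [hq2]
          have h4 : 5 * (u / ρ ^ L / ρ) ≤ 4 * (u / ρ ^ L) := by
            rw [mul_div_assoc', div_le_iff₀ hρ0]
            nlinarith
          linarith
  have h := key L
  rcases lt_or_ge (ρ ^ L) u with h1 | h1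
  · have h2 := h.1 h1
    have h3 : ρ ^ L / u ≤ 1 := by rw [div_le_one hu]; exact h1.le
    linarith
  · have h2 := h.2 h1
    have h3 : 0 < u / ρ ^ L := by positivity
    linarith

lemma le_sum_two_pow (e L : ℕ) (h : e < 2 ^ L) :
    e ≤ ∑ a ∈ range L, if 2 ^ a ≤ e then 2 ^ a else 0 := by
  induction L generalizing e with
  | zero =>
    have : e = 0 := by simpa using h
    simp [this]
  | succ L ih =>
    rw [Finset.sum_range_succ]
    by_cases h1 : 2 ^ L ≤ e
    · rw [if_pos h1]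
      have h2 : ∀ a ∈ range L, (if 2 ^ a ≤ e then 2 ^ a else 0) = 2 ^ a := by
        intro a ha
        rw [if_pos]
        exact le_trans (Nat.pow_le_pow_right (by norm_num) (mem_range.mp ha).le) h1
      rw [Finset.sum_congr rfl h2, Nat.geomSum_eq (le_refl 2)]
      rw [pow_succ] at h
      have : 0 < 2 ^ L := by positivity
      simp only [Nat.add_one_sub_one, Nat.div_one]
      omega
    · rw [if_neg h1, add_zero]
      exact ih e (not_le.mp h1)

section main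

variable {P : Finset (ℝ × ℝ)} {k m : ℕ} {A : Fin m → Finset (ℝ × ℝ)} {s : Fin m → ℝ × ℝ}

open scoped Classical in
/-- the edges from `A i` to `A j` -/
noncomputable def EE (P : Finset (ℝ × ℝ)) (k : ℕ) (A : Fin m → Finset (ℝ × ℝ)) (i j : Fin m) :
    Finset Seg := (kes P k).filter (fun f => f.1 ∈ A i ∧ f.2 ∈ A j)

/-- the combinatorial hypotheses -/
structure Comb (P : Finset (ℝ × ℝ)) (k : ℕ) (A : Fin m → Finset (ℝ × ℝ)) (s : Fin m → ℝ × ℝ) :
    Prop where
  gp : GP P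
  sub : ∀ i, A i ⊆ P
  dis : ∀ i j, i ≠ j → Disjoint (A i) (A j)
  mem : ∀ i, s i ∈ A i
  ind : ∀ i j l, i ≠ j → i ≠ l → j ≠ l → ∀ x ∈ A i, ∀ y ∈ A j, ∀ z ∈ A l,
    (0 < cr x y z ↔ 0 < cr (s i) (s j) (s l))
  few : ∀ i j, i ≠ j → #(EE P k A i j) ≤ min #(A i) #(A j)

lemma Comb.ne (h : Comb P k A s) {i j : Fin m} (hij : i ≠ j) {x y : ℝ × ℝ} (hx : x ∈ A i)
    (hy : y ∈ A j) : x ≠ y := by
  rintro rfl
  exact Finset.disjoint_left.mp (h.dis i j hij) hx hy

lemma Comb.inj (h : Comb P k A s) : Function.Injective s := by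
  intro i j hij
  by_contra hne
  exact h.ne hne (h.mem i) (h.mem j) hij

/-- the segment between the representatives -/
noncomputable def sg (s : Fin m → ℝ × ℝ) (c : Fin m × Fin m) : Seg :=
  if (s c.1).1 < (s c.2).1 then (s c.1, s c.2) else (s c.2, s c.1)

lemma sg_or (s : Fin m → ℝ × ℝ) (c : Fin m × Fin m) :
    sg s c = (s c.1, s c.2) ∨ sg s c = (s c.2, s c.1) := by
  unfold sg
  split_ifs
  · exact Or.inl rfl
  · exact Or.inr rfl

lemma Comb.sg_lt (h : Comb P k A s) {c : Fin m × Fin m} (hc : c.1 ≠ c.2) :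
    (sg s c).1.1 < (sg s c).2.1 := by
  unfold sg
  split_ifs with h1
  · exact h1
  · exact lt_of_le_of_ne (not_lt.mp h1) (h.gp.ne1 (h.sub _ (h.mem c.2)) (h.sub _ (h.mem c.1))
      (h.ne hc.symm (h.mem _) (h.mem _)))

/-- crossings of the segments between representatives give crossings of all edges -/
lemma Comb.cross (h : Comb P k A s) {c d : Fin m × Fin m} (hc : c.1 ≠ c.2) (hd : d.1 ≠ d.2)
    (hcd : Cr (sg s c) (sg s d)) {e f : Seg} (he : e ∈ EE P k A c.1 c.2)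
    (hf : f ∈ EE P k A d.1 d.2) : Cr e f := by
  classical
  unfold EE at he hf
  rw [mem_filter, mem_kes] at he hf
  have hgen := gen_of_GP h.gp
  have hclt := h.sg_lt hc
  have hdlt := h.sg_lt hd
  -- the indices are distinct
  have hdist : c.1 ≠ d.1 ∧ c.1 ≠ d.2 ∧ c.2 ≠ d.1 ∧ c.2 ≠ d.2 := by
    have h4 := hcd.distinct hclt hdlt
    have hsub : ends4 (sg s c, sg s d) ⊆ {s c.1, s c.2, s d.1, s d.2} := by
      intro x hx
      unfold ends4 at hx
      simp only [mem_insert, mem_singleton] at hx ⊢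
      rcases sg_or s c with h5 | h5 <;> rcases sg_or s d with h6 | h6 <;>
        rw [h5, h6] at hx <;> simp only at hx <;> tauto
    have h7 : 4 ≤ #({s c.1, s c.2, s d.1, s d.2} : Finset (ℝ × ℝ)) := by
      rw [← h4]
      exact Finset.card_le_card hsub
    have key : ∀ {a b c' : ℝ × ℝ} {X : Finset (ℝ × ℝ)}, X ⊆ {a, b, c'} → 4 ≤ #X → False := by
      intro a b c' X hX h8
      have h9 := Finset.card_le_card hX
      have h10 := Finset.card_le_three (a := a) (b := b) (c := c')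
      omega
    refine ⟨?_, ?_, ?_, ?_⟩
    · intro h8
      refine key (a := s c.1) (b := s c.2) (c' := s d.2) ?_ h7
      intro x hx
      rw [← h8] at hx
      simp only [mem_insert, mem_singleton] at hx ⊢
      tauto
    · intro h8
      refine key (a := s c.1) (b := s c.2) (c' := s d.1) ?_ h7
      intro x hx
      rw [← h8] at hx
      simp only [mem_insert, mem_singleton] at hx ⊢
      tauto
    · intro h8
      refine key (a := s c.1) (b := s c.2) (c' := s d.2) ?_ h7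
      intro x hx
      rw [← h8] at hx
      simp only [mem_insert, mem_singleton] at hx ⊢
      tauto
    · intro h8
      refine key (a := s c.1) (b := s c.2) (c' := s d.1) ?_ h7
      intro x hx
      rw [← h8] at hx
      simp only [mem_insert, mem_singleton] at hx ⊢
      tauto
  obtain ⟨n1, n2, n3, n4⟩ := hdist
  -- signs for the representatives
  have key : ∀ {c d : Fin m × Fin m}, c.1 ≠ c.2 → d.1 ≠ d.2 → Cr (sg s c) (sg s d) →
      cr (s c.1) (s c.2) (s d.1) * cr (s c.1) (s c.2) (s d.2) < 0 := by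
    intro c d hc hd hcd
    have h5 := cr_of_Cr (h.sg_lt hc) (h.sg_lt hd) hcd
    rcases sg_or s c with h6 | h6 <;> rcases sg_or s d with h7 | h7 <;>
      rw [h6, h7] at h5 <;> simp only at h5
    · exact h5
    · rw [mul_comm]; exact h5
    · rw [cr_swap (s c.1), cr_swap (s c.1) (s c.2), neg_mul_neg] at h5; exact h5
    · rw [cr_swap (s c.1), cr_swap (s c.1) (s c.2), neg_mul_neg, mul_comm] at h5; exact h5
  have r1 := key hc hd hcd
  have r2 := key hd hc hcd.symm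
  -- transfer
  have mem1 := h.mem
  have tr : ∀ {i j l l' : Fin m} {x y z z' : ℝ × ℝ}, i ≠ j → i ≠ l → j ≠ l → i ≠ l' → j ≠ l' →
      l ≠ l' → x ∈ A i → y ∈ A j → z ∈ A l → z' ∈ A l' →
      cr (s i) (s j) (s l) * cr (s i) (s j) (s l') < 0 → cr x y z * cr x y z' < 0 := by
    intro i j l l' x y z z' a1 a2 a3 a4 a5 a6 hx hy hz hz' hneg
    have nz : ∀ {i j l : Fin m} {x y z : ℝ × ℝ}, i ≠ j → i ≠ l → j ≠ l → x ∈ A i → y ∈ A j →
        z ∈ A l → cr x y z ≠ 0 := by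
      intro i j l x y z a1 a2 a3 hx hy hz
      exact hgen x (h.sub i hx) y (h.sub j hy) z (h.sub l hz) (h.ne a1 hx hy) (h.ne a2 hx hz)
        (h.ne a3 hy hz)
    rw [mul_neg_iff' (nz a1 a2 a3 (mem1 i) (mem1 j) (mem1 l))
      (nz a1 a4 a5 (mem1 i) (mem1 j) (mem1 l'))] at hneg
    rw [mul_neg_iff' (nz a1 a2 a3 hx hy hz) (nz a1 a4 a5 hx hy hz'),
      h.ind i j l a1 a2 a3 x hx y hy z hz, h.ind i j l' a1 a4 a5 x hx y hy z' hz']
    exact hneg
  refine Cr_of_cr he.1.2.2.1 hf.1.2.2.1 ?_ ?_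
  · exact tr hc n1 n3 n2 n4 hd he.2.1 he.2.2 hf.2.1 hf.2.2 r1
  · exact tr hd n1.symm n2.symm n3.symm n4.symm hc hf.2.1 hf.2.2 he.2.1 he.2.2 r2

open scoped Classical in
/-- the pairs of clusters with at least `t` edges -/
noncomputable def II (P : Finset (ℝ × ℝ)) (k : ℕ) (A : Fin m → Finset (ℝ × ℝ)) (t : ℕ) :
    Finset (Fin m × Fin m) :=
  (Finset.univ : Finset (Fin m)).offDiag.filter (fun c => t ≤ #(EE P k A c.1 c.2))

lemma mem_II {t : ℕ} {c : Fin m × Fin m} :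
    c ∈ II P k A t ↔ c.1 ≠ c.2 ∧ t ≤ #(EE P k A c.1 c.2) := by
  classical
  unfold II
  rw [mem_filter, mem_offDiag]
  simp

open scoped Classical in
lemma Comb.II_le (h : Comb P k A s) (t : ℕ) : #(II P k A t) ≤ 2 * #((II P k A t).image (sg s)) := by
  apply Finset.card_le_mul_card_image
  intro f _
  by_contra hcon
  push Not at hcon
  obtain ⟨a, b, c, ha, hb, hc, hab, hac, hbc⟩ := Finset.two_lt_card_iff.mp hcon
  rw [mem_filter] at ha hb hc
  have key : ∀ {c d : Fin m × Fin m}, sg s c = f → sg s d = f → d = c ∨ d = c.swap := by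
    intro c d h1 h2
    rcases sg_or s c with h3 | h3 <;> rcases sg_or s d with h4 | h4 <;>
      rw [h1] at h3 <;> rw [h2, h3] at h4 <;> simp only [Prod.mk.injEq] at h4
    · exact Or.inl (Prod.ext (h.inj h4.1).symm (h.inj h4.2).symm)
    · exact Or.inr (Prod.ext (h.inj h4.2).symm (h.inj h4.1).symm)
    · exact Or.inr (Prod.ext (h.inj h4.1).symm (h.inj h4.2).symm)
    · exact Or.inl (Prod.ext (h.inj h4.2).symm (h.inj h4.1).symm)
  rcases key ha.2 hb.2 with h1 | h1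
  · exact hab h1.symm
  · rcases key ha.2 hc.2 with h2 | h2
    · exact hac h2.symm
    · exact hbc (h1.trans h2.symm)

lemma Comb.uniq (h : Comb P k A s) {c d : Fin m × Fin m} {e : Seg}
    (h1 : e ∈ EE P k A c.1 c.2) (h2 : e ∈ EE P k A d.1 d.2) : c = d := by
  classical
  unfold EE at h1 h2
  rw [mem_filter] at h1 h2
  apply Prod.ext
  · by_contra hne
    exact h.ne hne h1.2.1 h2.2.1 rfl
  · by_contra hne
    exact h.ne hne h1.2.2 h2.2.2 rfl

open scoped Classical in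
/-- the crossings -/
lemma Comb.crs_bound (h : Comb P k A s) (t : ℕ) :
    t ^ 2 * #(crs ((II P k A t).image (sg s))) ≤ #(crs (kes P k)) := by
  set F := (II P k A t).image (sg s) with hF
  rcases F.eq_empty_or_nonempty with h0 | ⟨f₀, hf₀⟩
  · have : crs F = ∅ := by
      rw [h0]
      unfold crs
      simp
    rw [this]
    simp
  obtain ⟨c₀, -, -⟩ := mem_image.mp hf₀
  have hex : ∀ f : Seg, ∃ c : Fin m × Fin m, f ∈ F → c ∈ II P k A t ∧ sg s c = f := by
    intro f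
    by_cases hf : f ∈ F
    · obtain ⟨c, hc, h1⟩ := mem_image.mp hf
      exact ⟨c, fun _ => ⟨hc, h1⟩⟩
    · exact ⟨c₀, fun h1 => absurd h1 hf⟩
  choose c hc using hex
  have hmem : ∀ x ∈ crs F, x.1 ∈ F ∧ x.2 ∈ F ∧ ss x.2 < ss x.1 ∧ Cr x.1 x.2 := by
    intro x hx
    unfold crs at hx
    rw [mem_filter, mem_product] at hx
    exact ⟨hx.1.1, hx.1.2, hx.2.1, hx.2.2⟩
  have hEk : ∀ {d : Fin m × Fin m} {e : Seg}, e ∈ EE P k A d.1 d.2 → e ∈ kes P k := by
    intro d e he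
    unfold EE at he
    exact (mem_filter.mp he).1
  have h1 : t ^ 2 * #(crs F) ≤ #((crs F).sigma (fun x => EE P k A (c x.1).1 (c x.1).2 ×ˢ
      EE P k A (c x.2).1 (c x.2).2)) := by
    rw [Finset.card_sigma, mul_comm, ← smul_eq_mul]
    apply Finset.card_nsmul_le_sum
    intro x hx
    obtain ⟨a1, a2, -, -⟩ := hmem x hx
    rw [card_product, pow_two]
    exact Nat.mul_le_mul (mem_II.mp (hc _ a1).1).2 (mem_II.mp (hc _ a2).1).2
  refine h1.trans ?_
  refine Finset.card_le_card_of_injOn (fun y => if ss y.2.2 < ss y.2.1 then (y.2.1, y.2.2)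
    else (y.2.2, y.2.1)) ?_ ?_
  · rintro ⟨x, e, f⟩ hy
    rw [mem_coe, mem_sigma, mem_product] at hy
    obtain ⟨hx, he, hf⟩ := hy
    simp only at hx he hf
    obtain ⟨a1, a2, a3, a4⟩ := hmem x hx
    have b1 := hc _ a1
    have b2 := hc _ a2
    have hcr : Cr e f := by
      refine h.cross (mem_II.mp b1.1).1 (mem_II.mp b2.1).1 ?_ he hf
      rw [b1.2, b2.2]
      exact a4
    have hne : ss e ≠ ss f := hcr.1
    simp only
    unfold crs
    split_ifs with h2
    · rw [mem_coe, mem_filter, mem_product]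
      exact ⟨⟨hEk he, hEk hf⟩, h2, hcr⟩
    · rw [mem_coe, mem_filter, mem_product]
      exact ⟨⟨hEk hf, hEk he⟩, lt_of_le_of_ne (not_lt.mp h2) hne, hcr.symm⟩
  · rintro ⟨x, e, f⟩ hy ⟨x', e', f'⟩ hy' heq
    rw [mem_coe, mem_sigma, mem_product] at hy hy'
    obtain ⟨hx, he, hf⟩ := hy
    obtain ⟨hx', he', hf'⟩ := hy'
    simp only at hx he hf hx' he' hf' heq
    obtain ⟨a1, a2, a3, a4⟩ := hmem x hx
    obtain ⟨a1', a2', a3', a4'⟩ := hmem x' hx'
    have same : ∀ {f g : Seg} {e : Seg}, f ∈ F → g ∈ F → e ∈ EE P k A (c f).1 (c f).2 →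
        e ∈ EE P k A (c g).1 (c g).2 → f = g := by
      intro f g e hf hg h3 h4
      have h5 := h.uniq h3 h4
      rw [← (hc f hf).2, ← (hc g hg).2, h5]
    have hcase : (e = e' ∧ f = f') ∨ (e = f' ∧ f = e') := by
      split_ifs at heq with h2 h3 h3 <;> simp only [Prod.mk.injEq] at heq
      · exact Or.inl heq
      · exact Or.inr heq
      · exact Or.inr ⟨heq.2, heq.1⟩
      · exact Or.inl ⟨heq.2, heq.1⟩
    rcases hcase with ⟨rfl, rfl⟩ | ⟨rfl, rfl⟩
    · have h3 : x.1 = x'.1 := same a1 a1' he he'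
      have h4 : x.2 = x'.2 := same a2 a2' hf hf'
      have h5 : x = x' := Prod.ext h3 h4
      subst h5
      rfl
    · have h3 : x.1 = x'.2 := same a1 a2' he hf'
      have h4 : x.2 = x'.1 := same a2 a1' hf he'
      rw [h3, h4] at a3
      exact absurd a3 (not_lt.mpr a3'.le)

open scoped Classical in
/-- the bound for the number of pairs of clusters with at least `t` edges -/
lemma Comb.layer (h : Comb P k A s) {t : ℕ} (ht : 0 < t) (htn : t ≤ #P) :
    ∃ v : ℕ, v ≤ m ∧ t * v ≤ #P ∧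
      (#(II P k A t) : ℝ) ≤ 14 * ((v : ℝ) * (2 * #P / t)) ^ (2 / 3 : ℝ) := by
  set F := (II P k A t).image (sg s) with hF
  set V := ((Finset.univ : Finset (Fin m)).filter (fun i => t ≤ #(A i))).image s with hV
  have hVcard : #V = #((Finset.univ : Finset (Fin m)).filter (fun i => t ≤ #(A i))) :=
    Finset.card_image_of_injective _ h.inj
  have hVm : #V ≤ m := by
    rw [hVcard]
    exact (Finset.card_filter_le _ _).trans (by simp)
  have hVn : t * #V ≤ #P := by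
    rw [hVcard, mul_comm, ← smul_eq_mul]
    refine (Finset.card_nsmul_le_sum _ (fun i => #(A i)) t
      (fun i hi => (mem_filter.mp hi).2)).trans ?_
    rw [← Finset.card_biUnion (fun i _ j _ hij => h.dis i j hij)]
    apply Finset.card_le_card
    intro x hx
    obtain ⟨i, -, hi⟩ := mem_biUnion.mp hx
    exact h.sub i hi
  refine ⟨#V, hVm, hVn, ?_⟩
  have hVP : V ⊆ P := by
    intro x hx
    obtain ⟨i, -, rfl⟩ := mem_image.mp hx
    exact h.sub i (h.mem i)
  have hFV : ∀ e ∈ F, e.1 ∈ V ∧ e.2 ∈ V ∧ e.1.1 < e.2.1 := by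
    intro e he
    obtain ⟨c, hc, rfl⟩ := mem_image.mp he
    obtain ⟨hc1, hc2⟩ := mem_II.mp hc
    have h1 := h.few c.1 c.2 hc1
    have m1 : s c.1 ∈ V := mem_image_of_mem _ (mem_filter.mpr ⟨mem_univ _,
      hc2.trans (h1.trans (min_le_left _ _))⟩)
    have m2 : s c.2 ∈ V := mem_image_of_mem _ (mem_filter.mpr ⟨mem_univ _,
      hc2.trans (h1.trans (min_le_right _ _))⟩)
    have h2 := h.sg_lt hc1
    rcases sg_or s c with h3 | h3
    · rw [h3] at h2 ⊢
      exact ⟨m1, m2, h2⟩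
    · rw [h3] at h2 ⊢
      exact ⟨m2, m1, h2⟩
  have h2F := h.II_le t
  rw [← hF] at h2F
  have hnn : (0 : ℝ) ≤ 14 * ((#V : ℝ) * (2 * #P / t)) ^ (2 / 3 : ℝ) := by positivity
  rcases Nat.eq_zero_or_pos #V with hV0 | hV0
  · have : F = ∅ := by
      rw [Finset.eq_empty_iff_forall_notMem]
      intro e he
      rw [Finset.card_eq_zero] at hV0
      have := (hFV e he).1
      rw [hV0] at this
      exact absurd this (notMem_empty _)
    rw [this] at h2F
    have h3 : #(II P k A t) = 0 := by simpa using h2F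
    rw [h3]
    simpa using hnn
  have hcrs := h.crs_bound t
  rw [← hF] at hcrs
  have hmany := (crs_le h.gp (k := k))
  have htwo := two_mul_pairs P k
  have hdm := Nat.div_add_mod #P t
  have hml := Nat.mod_lt #P ht
  have hlt : #P < t * (#P / t + 1) := by rw [Nat.mul_add]; omega
  have hX : 2 * #(crs F) ≤ (#P / t + 1) ^ 2 := by
    have h3 : t ^ 2 * (2 * #(crs F)) ≤ #P ^ 2 := by nlinarith
    have h4 : #P ^ 2 < t ^ 2 * (#P / t + 1) ^ 2 := by
      rw [← mul_pow]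
      exact Nat.pow_lt_pow_left hlt (by norm_num)
    have h5 : t ^ 2 * (2 * #(crs F)) < t ^ 2 * (#P / t + 1) ^ 2 := lt_of_le_of_lt h3 h4
    exact (Nat.lt_of_mul_lt_mul_left h5).le
  have hvn : #V ≤ #P / t + 1 := by
    have h3 : #V ≤ #P / t := by
      rw [Nat.le_div_iff_mul_le ht, mul_comm]
      exact hVn
    omega
  have hsc := scale (N := #F) (M := 0) (n := #P / t + 1) (m := #V) (X := #(crs F))
    (fun r hr => by
      have := crossing_lemma (h.gp.mono hVP) hFV r hr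
      omega) hV0 hX hvn
  have h6 : (((#P / t + 1 : ℕ)) : ℝ) ≤ 2 * #P / t := by
    have ht0 : (0 : ℝ) < t := by exact_mod_cast ht
    rw [le_div_iff₀ ht0]
    have h7 : (#P / t + 1) * t ≤ 2 * #P := by
      have : #P / t * t ≤ #P := Nat.div_mul_le_self _ _
      nlinarith
    exact_mod_cast h7
  have h8 : ((#V : ℝ) * ((#P / t + 1 : ℕ) : ℝ)) ^ (2 / 3 : ℝ) ≤
      ((#V : ℝ) * (2 * #P / t)) ^ (2 / 3 : ℝ) := by
    apply Real.rpow_le_rpow (by positivity) _ (by norm_num)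
    exact mul_le_mul_of_nonneg_left h6 (Nat.cast_nonneg _)
  have h9 : (#(II P k A t) : ℝ) ≤ 2 * #F := by exact_mod_cast h2F
  have h10 : (#F : ℝ) ≤ 7 * ((#V : ℝ) * ((#P / t + 1 : ℕ) : ℝ)) ^ (2 / 3 : ℝ) := by
    have h11 := hsc
    push_cast at h11 ⊢
    linarith
  linarith

/-- one layer -/
lemma layer_num {n m v τ : ℝ} (hn : 0 < n) (hm : 0 < m) (hv0 : 0 ≤ v) (hτ : 0 < τ)
    (hv : v ≤ m) (hvn : τ * v ≤ n) :
    τ * (14 * (v * (2 * n / τ)) ^ (2 / 3 : ℝ)) ≤ 22.3 * (n * m ^ (1 / 3 : ℝ)) *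
      min (τ ^ (1 / 3 : ℝ) / (n / m) ^ (1 / 3 : ℝ)) ((n / m) ^ (1 / 3 : ℝ) / τ ^ (1 / 3 : ℝ)) := by
  obtain ⟨N, hN0, hN⟩ : ∃ N : ℝ, 0 < N ∧ n = N ^ 3 :=
    ⟨n ^ (1 / 3 : ℝ), by positivity, by
      rw [← Real.rpow_natCast, ← Real.rpow_mul hn.le]; norm_num⟩
  obtain ⟨M, hM0, hM⟩ : ∃ M : ℝ, 0 < M ∧ m = M ^ 3 :=
    ⟨m ^ (1 / 3 : ℝ), by positivity, by
      rw [← Real.rpow_natCast, ← Real.rpow_mul hm.le]; norm_num⟩
  obtain ⟨y, hy0, hy⟩ : ∃ y : ℝ, 0 < y ∧ τ = y ^ 3 :=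
    ⟨τ ^ (1 / 3 : ℝ), by positivity, by
      rw [← Real.rpow_natCast, ← Real.rpow_mul hτ.le]; norm_num⟩
  obtain ⟨w, hw0, hw⟩ : ∃ w : ℝ, 0 ≤ w ∧ v = w ^ 3 :=
    ⟨v ^ (1 / 3 : ℝ), by positivity, by
      rw [← Real.rpow_natCast, ← Real.rpow_mul hv0]; norm_num⟩
  have cube : ∀ x : ℝ, 0 ≤ x → (x ^ 3) ^ (1 / 3 : ℝ) = x := by
    intro x hx
    rw [← Real.rpow_natCast, ← Real.rpow_mul hx]
    norm_num
  have hwM : w ≤ M := by
    rw [hw, hM] at hv
    exact (pow_le_pow_iff_left₀ hw0 hM0.le (by norm_num)).mp hv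
  have hwN : y * w ≤ N := by
    rw [hw, hN, hy, ← mul_pow] at hvn
    exact (pow_le_pow_iff_left₀ (by positivity) hN0.le (by norm_num)).mp hvn
  have e1 : (v * (2 * n / τ)) ^ (2 / 3 : ℝ) = 2 ^ (2 / 3 : ℝ) * (w ^ 2 * N ^ 2 / y ^ 2) := by
    have h1 : v * (2 * n / τ) = 2 * ((w * N / y) ^ 3) := by
      rw [hw, hN, hy]; field_simp
    rw [h1, Real.mul_rpow (by norm_num) (by positivity), ← Real.rpow_natCast,
      ← Real.rpow_mul (by positivity)]
    have h2 : (((3 : ℕ) : ℝ) * (2 / 3)) = ((2 : ℕ) : ℝ) := by norm_num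
    rw [h2, Real.rpow_natCast]
    ring
  have e2 : (2 : ℝ) ^ (2 / 3 : ℝ) ≤ 1.59 := by
    have h1 : (2 : ℝ) ^ (2 / 3 : ℝ) = (4 : ℝ) ^ (1 / 3 : ℝ) := by
      rw [show (4 : ℝ) = (2 : ℝ) ^ (2 : ℝ) by norm_num, ← Real.rpow_mul (by norm_num)]
      norm_num
    have h2 : (4 : ℝ) ^ (1 / 3 : ℝ) ≤ ((1.59 : ℝ) ^ 3) ^ (1 / 3 : ℝ) :=
      Real.rpow_le_rpow (by norm_num) (by norm_num) (by norm_num)
    rw [cube 1.59 (by norm_num)] at h2
    rw [h1]
    exact h2
  have e3 : m ^ (1 / 3 : ℝ) = M := by rw [hM]; exact cube M hM0.le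
  have e4 : τ ^ (1 / 3 : ℝ) = y := by rw [hy]; exact cube y hy0.le
  have e5 : (n / m) ^ (1 / 3 : ℝ) = N / M := by
    rw [hN, hM, ← div_pow]; exact cube _ (by positivity)
  rw [e1, e3, e4, e5, hN]
  have hτ' : τ * (14 * (2 ^ (2 / 3 : ℝ) * (w ^ 2 * N ^ 2 / y ^ 2))) =
      14 * 2 ^ (2 / 3 : ℝ) * (y * (w ^ 2 * N ^ 2)) := by
    rw [hy]; field_simp
  rw [hτ']
  have hb : 14 * (2 : ℝ) ^ (2 / 3 : ℝ) ≤ 22.3 := by linarith
  have hw2 : 0 ≤ y * (w ^ 2 * N ^ 2) := by positivity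
  have h1 : 14 * (2 : ℝ) ^ (2 / 3 : ℝ) * (y * (w ^ 2 * N ^ 2)) ≤
      22.3 * (y * (w ^ 2 * N ^ 2)) := mul_le_mul_of_nonneg_right hb hw2
  refine h1.trans ?_
  rw [mul_assoc (22.3 : ℝ)]
  refine mul_le_mul_of_nonneg_left ?_ (by norm_num)
  rw [mul_min_of_nonneg _ _ (by positivity)]
  apply le_min
  · have h2 : N ^ 3 * M * (y / (N / M)) = y * (M ^ 2 * N ^ 2) := by field_simp
    rw [h2]
    have h3 : w ^ 2 ≤ M ^ 2 := pow_le_pow_left₀ hw0 hwM 2
    have h4 : w ^ 2 * N ^ 2 ≤ M ^ 2 * N ^ 2 := mul_le_mul_of_nonneg_right h3 (by positivity)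
    exact mul_le_mul_of_nonneg_left h4 hy0.le
  · have h2 : N ^ 3 * M * (N / M / y) = N ^ 2 * N ^ 2 / y := by field_simp
    rw [h2, le_div_iff₀ hy0]
    have h3 : (y * w) ^ 2 ≤ N ^ 2 := pow_le_pow_left₀ (by positivity) hwN 2
    have h4 : (y * w) ^ 2 * N ^ 2 ≤ N ^ 2 * N ^ 2 := mul_le_mul_of_nonneg_right h3 (by positivity)
    calc y * (w ^ 2 * N ^ 2) * y = (y * w) ^ 2 * N ^ 2 := by ring
      _ ≤ _ := h4

open scoped Classical in
/-- **the bound for the edges between different clusters** -/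
theorem Comb.main (h : Comb P k A s) :
    ∑ c ∈ (Finset.univ : Finset (Fin m)).offDiag, (#(EE P k A c.1 c.2) : ℝ) ≤
      223 * (#P * (m : ℝ) ^ (1 / 3 : ℝ)) := by
  rcases Nat.eq_zero_or_pos m with hm | hm
  · subst hm
    simp
  rcases Nat.eq_zero_or_pos #P with hn | hn
  · exfalso
    have h1 := h.sub ⟨0, hm⟩ (h.mem ⟨0, hm⟩)
    rw [Finset.card_eq_zero] at hn
    rw [hn] at h1
    exact absurd h1 (notMem_empty _)
  have hn' : (0 : ℝ) < #P := by exact_mod_cast hn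
  have hm' : (0 : ℝ) < m := by exact_mod_cast hm
  -- every cardinality is at most the sum of powers of two
  have hEn : ∀ c ∈ (Finset.univ : Finset (Fin m)).offDiag, #(EE P k A c.1 c.2) ≤ #P := by
    intro c hc
    rw [mem_offDiag] at hc
    exact (h.few c.1 c.2 hc.2.2).trans ((min_le_left _ _).trans (Finset.card_le_card (h.sub _)))
  have h1 : ∑ c ∈ (Finset.univ : Finset (Fin m)).offDiag, #(EE P k A c.1 c.2) ≤
      ∑ a ∈ range (#P + 1), 2 ^ a * #(II P k A (2 ^ a)) := by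
    calc ∑ c ∈ (Finset.univ : Finset (Fin m)).offDiag, #(EE P k A c.1 c.2) ≤
        ∑ c ∈ (Finset.univ : Finset (Fin m)).offDiag, ∑ a ∈ range (#P + 1),
          (if 2 ^ a ≤ #(EE P k A c.1 c.2) then 2 ^ a else 0) := by
          refine Finset.sum_le_sum fun c hc => le_sum_two_pow _ _ ?_
          exact lt_of_le_of_lt (hEn c hc) (Nat.lt_of_lt_of_le (Nat.lt_succ_self _)
            (Nat.lt_two_pow_self).le)
      _ = ∑ a ∈ range (#P + 1), ∑ c ∈ (Finset.univ : Finset (Fin m)).offDiag,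
          (if 2 ^ a ≤ #(EE P k A c.1 c.2) then 2 ^ a else 0) := Finset.sum_comm
      _ = _ := by
          refine Finset.sum_congr rfl fun a _ => ?_
          rw [← Finset.sum_filter, Finset.sum_const, smul_eq_mul, mul_comm]
          rfl
  have h2 : ∑ c ∈ (Finset.univ : Finset (Fin m)).offDiag, (#(EE P k A c.1 c.2) : ℝ) ≤
      ∑ a ∈ range (#P + 1), ((2 : ℝ) ^ a * #(II P k A (2 ^ a))) := by
    exact_mod_cast h1
  refine h2.trans ?_
  set ρ : ℝ := (2 : ℝ) ^ (1 / 3 : ℝ) with hρ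
  have hρ1 : 5 / 4 ≤ ρ := by
    have h3 : ((5 / 4 : ℝ) ^ 3) ^ (1 / 3 : ℝ) ≤ (2 : ℝ) ^ (1 / 3 : ℝ) :=
      Real.rpow_le_rpow (by norm_num) (by norm_num) (by norm_num)
    rw [← Real.rpow_natCast, ← Real.rpow_mul (by norm_num)] at h3
    norm_num at h3 ⊢
    exact h3
  set u : ℝ := ((#P : ℝ) / m) ^ (1 / 3 : ℝ) with hu
  have hu0 : 0 < u := by positivity
  have hpow : ∀ a : ℕ, ((2 : ℝ) ^ a) ^ (1 / 3 : ℝ) = ρ ^ a := by
    intro a
    rw [hρ, ← Real.rpow_natCast, ← Real.rpow_mul (by norm_num), ← Real.rpow_natCast,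
      ← Real.rpow_mul (by norm_num)]
    congr 1
    ring
  have h3 : ∀ a ∈ range (#P + 1), (2 : ℝ) ^ a * #(II P k A (2 ^ a)) ≤
      22.3 * (#P * (m : ℝ) ^ (1 / 3 : ℝ)) * min (ρ ^ a / u) (u / ρ ^ a) := by
    intro a _
    have ht : 0 < 2 ^ a := by positivity
    rcases le_or_gt (2 ^ a) #P with htn | htn
    · obtain ⟨v, hv1, hv2, hv3⟩ := h.layer ht htn
      have h4 := layer_num (n := #P) (m := m) (v := v) (τ := (2 : ℝ) ^ a) hn' hm'
        (Nat.cast_nonneg _) (by positivity) (by exact_mod_cast hv1) (by exact_mod_cast hv2)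
      rw [hpow] at h4
      refine le_trans ?_ h4
      refine mul_le_mul_of_nonneg_left ?_ (by positivity)
      push_cast at hv3
      exact hv3
    · have h5 : II P k A (2 ^ a) = ∅ := by
        rw [Finset.eq_empty_iff_forall_notMem]
        intro c hc
        rw [mem_II] at hc
        have := hEn c (by rw [mem_offDiag]; exact ⟨mem_univ _, mem_univ _, hc.1⟩)
        omega
      rw [h5]
      simp only [card_empty, Nat.cast_zero, mul_zero]
      positivity
  refine (Finset.sum_le_sum h3).trans ?_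
  rw [← Finset.mul_sum]
  have h4 := geom_min hρ1 hu0 (#P + 1)
  have h5 : 0 ≤ 22.3 * (#P * (m : ℝ) ^ (1 / 3 : ℝ)) := by positivity
  have h6 := mul_le_mul_of_nonneg_left h4 h5
  linarith

end main

end Pool.Agent.K7.H30.CT
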