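import Pool.Agent.K7.H30.CT.Weighted

/-!
# Lines through points of different clusters
-/

set_option autoImplicit false

namespace Pool.Agent.K7.H30.CT

open Finset Pool.Agent.TH124.KE Pool.Agent.Y429.HalvFew Pool.Agent.K7.H30.HB
open Pool.Agent.W296.HL (cr cr_swap Gen)
open Pool.Agent.R117.KR (IsKLine IsBisector Line two_mul_le kline_finite)

variable {P : Finset (ℝ × ℝ)} {m : ℕ} {A : Fin m → Finset (ℝ × ℝ)} {s : Fin m → ℝ × ℝ}

lemma indep' (hA : ∀ i, IsCluster P (A i)) (hd : ∀ i j, i ≠ j → Disjoint (A i) (A j))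
    (hs : ∀ i, s i ∈ A i) {i j l : Fin m} (hij : i ≠ j) (hil : i ≠ l) (hjl : j ≠ l)
    {x y z : ℝ × ℝ} (hx : x ∈ A i) (hy : y ∈ A j) (hz : z ∈ A l) :
    0 < cr x y z ↔ 0 < cr (s i) (s j) (s l) := by
  have memU : ∀ {i : Fin m} {x : ℝ × ℝ}, x ∈ A i → x ∈ P := fun hx => (hA _).1 hx
  have nmem : ∀ {i j : Fin m} {x : ℝ × ℝ}, i ≠ j → x ∈ A i → x ∉ A j :=
    fun hij hx => Finset.disjoint_left.mp (hd _ _ hij) hx
  have ne : ∀ {i j : Fin m} {x y : ℝ × ℝ}, i ≠ j → x ∈ A i → y ∈ A j → x ≠ y := by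
    rintro i j x y hij hx hy rfl
    exact nmem hij hx hy
  have h1 : 0 < cr x y z ↔ 0 < cr x y (s l) :=
    (hA l).side_iff (memU hx) (memU hy) (nmem hil hx) (nmem hjl hy) (ne hij hx hy) hz (hs l)
  have h2 : 0 < cr (s l) x y ↔ 0 < cr (s l) x (s j) :=
    (hA j).side_iff (memU (hs l)) (memU hx) (nmem hjl.symm (hs l)) (nmem hij hx)
      (ne hil.symm (hs l) hx) hy (hs j)
  have h3 : 0 < cr (s j) (s l) x ↔ 0 < cr (s j) (s l) (s i) :=
    (hA i).side_iff (memU (hs j)) (memU (hs l)) (nmem hij.symm (hs j))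
      (nmem hil.symm (hs l)) (ne hjl (hs j) (hs l)) hx (hs i)
  rw [h1, ← cr_cyc x y (s l), h2, ← cr_cyc (s l) x (s j), h3, ← cr_cyc (s j) (s l) (s i)]

open scoped Classical in
lemma edge_left {ε : ℝ} (hP : Gen P)
    (hε : ∀ x ∈ P, ∀ y ∈ P, (shr ε x).1 = (shr ε y).1 → x = y) {x y : ℝ × ℝ} (hx : x ∈ P)
    (hy : y ∈ P) (h : (shr ε x).1 < (shr ε y).1) :
    bel (P.image (shr ε)) (sl (shr ε x) (shr ε y)) (shr ε x) = left P y x ∧
      abv (P.image (shr ε)) (sl (shr ε x) (shr ε y)) (shr ε x) = left P x y := by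
  constructor
  · unfold bel left
    rw [Finset.filter_image, Finset.card_image_of_injective _ (shr_inj ε)]
    congr 1
    apply Finset.filter_congr
    intro z _
    rw [below_iff h, cr_shr, cr_swap x y z]
    constructor <;> intro h <;> linarith
  · unfold abv left
    rw [Finset.filter_image, Finset.card_image_of_injective _ (shr_inj ε)]
    congr 1
    apply Finset.filter_congr
    intro z _
    rw [above_iff h, cr_shr]

open scoped Classical in
/-- the sheared clusters -/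
lemma comb_shear (hP : Gen P) {ε : ℝ}
    (hε : ∀ x ∈ P, ∀ y ∈ P, (shr ε x).1 = (shr ε y).1 → x = y)
    (hA : ∀ i, IsCluster P (A i)) (hd : ∀ i j, i ≠ j → Disjoint (A i) (A j))
    (hs : ∀ i, s i ∈ A i) (k : ℕ) :
    Comb (P.image (shr ε)) k (fun i => (A i).image (shr ε)) (fun i => shr ε (s i)) := by
  have hGP := gp_shear hP hε
  refine ⟨hGP, fun i => Finset.image_subset_image (hA i).1, ?_, fun i => mem_image_of_mem _ (hs i),
    ?_, ?_⟩
  · intro i j hij
    exact (Finset.disjoint_image (shr_inj ε)).mpr (hd i j hij)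
  · intro i j l hij hil hjl x hx y hy z hz
    obtain ⟨x', hx', rfl⟩ := mem_image.mp hx
    obtain ⟨y', hy', rfl⟩ := mem_image.mp hy
    obtain ⟨z', hz', rfl⟩ := mem_image.mp hz
    rw [cr_shr, cr_shr]
    exact indep' hA hd hs hij hil hjl hx' hy' hz'
  · intro i j hij
    have h1 := cross_le hP (hA i) (hA j) (hd i j hij) (#P - 2 - k)
    rw [Finset.card_image_of_injective _ (shr_inj ε), Finset.card_image_of_injective _ (shr_inj ε)]
    refine le_trans ?_ h1
    refine Finset.card_le_card_of_injOn (fun f => (shr (-ε) f.1, shr (-ε) f.2)) ?_ ?_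
    · intro f hf
      unfold EE at hf
      rw [mem_coe, mem_filter, mem_kes] at hf
      obtain ⟨⟨a1, a2, a3, a4⟩, a5, a6⟩ := hf
      obtain ⟨x, hx, hx1⟩ := mem_image.mp a5
      obtain ⟨y, hy, hy1⟩ := mem_image.mp a6
      rw [← hx1, ← hy1] at a3 a4
      obtain ⟨b1, b2⟩ := edge_left hP hε ((hA i).1 hx) ((hA j).1 hy) a3
      have hxy : x ≠ y := by
        rintro rfl
        exact lt_irrefl _ a3
      rw [mem_coe, mem_pairs]
      simp only [← hx1, ← hy1, shr_shr]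
      refine ⟨⟨hx, hy⟩, hxy, ?_⟩
      have h2 := left_add hP ((hA i).1 hx) ((hA j).1 hy) hxy
      rw [b1] at a4
      omega
    · intro f _ g _ hfg
      simp only [Prod.mk.injEq] at hfg
      exact Prod.ext (shr_inj _ hfg.1) (shr_inj _ hfg.2)

open scoped Classical in
/-- the ordered pairs of points in different clusters -/
theorem cross_sum (hP : Gen P) (hA : ∀ i, IsCluster P (A i))
    (hd : ∀ i j, i ≠ j → Disjoint (A i) (A j)) (hne : ∀ i, (A i).Nonempty) (k : ℕ) :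
    (#((Finset.univ : Finset (Fin m)).offDiag.biUnion (fun c => pairs P k (A c.1) (A c.2))) : ℝ) ≤
      446 * (#P * (m : ℝ) ^ (1 / 3 : ℝ)) := by
  choose s hs using hne
  obtain ⟨ε, hε⟩ := exists_shear P
  have hcard : #(P.image (shr ε)) = #P := Finset.card_image_of_injective _ (shr_inj ε)
  have hGP := gp_shear hP hε
  have hc1 := (comb_shear hP hε hA hd hs (#P - 2 - k)).main
  have hc2 := (comb_shear hP hε hA hd hs k).main
  rw [hcard] at hc1 hc2
  set A' : Fin m → Finset (ℝ × ℝ) := fun i => (A i).image (shr ε) with hA'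
  set P' := P.image (shr ε) with hP'
  have h1 : ∀ c ∈ (Finset.univ : Finset (Fin m)).offDiag, #(pairs P k (A c.1) (A c.2)) ≤
      #(EE P' (#P - 2 - k) A' c.1 c.2) + #(EE P' k A' c.2 c.1) := by
    intro c hc
    rw [← Finset.card_filter_add_card_filter_not (s := pairs P k (A c.1) (A c.2))
      (fun z => (shr ε z.1).1 < (shr ε z.2).1)]
    apply Nat.add_le_add
    · refine Finset.card_le_card_of_injOn (fun z => (shr ε z.1, shr ε z.2)) ?_ ?_
      · intro z hz
        rw [mem_coe, mem_filter, mem_pairs] at hz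
        obtain ⟨⟨⟨a1, a2⟩, a3, a4⟩, a5⟩ := hz
        have m1 := (hA c.1).1 a1
        have m2 := (hA c.2).1 a2
        obtain ⟨b1, b2⟩ := edge_left hP hε m1 m2 a5
        have h2 := left_add hP m1 m2 a3
        unfold EE
        rw [mem_coe, mem_filter, mem_kes]
        refine ⟨⟨mem_image_of_mem _ m1, mem_image_of_mem _ m2, a5, ?_⟩,
          mem_image_of_mem _ a1, mem_image_of_mem _ a2⟩
        show bel (P.image (shr ε)) (sl (shr ε z.1) (shr ε z.2)) (shr ε z.1) = #P - 2 - k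
        rw [b1]
        omega
      · intro z _ z' _ h5
        simp only [Prod.mk.injEq] at h5
        exact Prod.ext (shr_inj ε h5.1) (shr_inj ε h5.2)
    · refine Finset.card_le_card_of_injOn (fun z => (shr ε z.2, shr ε z.1)) ?_ ?_
      · intro z hz
        rw [mem_coe, mem_filter, mem_pairs] at hz
        obtain ⟨⟨⟨a1, a2⟩, a3, a4⟩, a5⟩ := hz
        have m1 := (hA c.1).1 a1
        have m2 := (hA c.2).1 a2
        have a6 : (shr ε z.2).1 < (shr ε z.1).1 := by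
          refine lt_of_le_of_ne (not_lt.mp a5) ?_
          intro h7
          exact a3 (hε z.1 m1 z.2 m2 h7.symm)
        obtain ⟨b1, b2⟩ := edge_left hP hε m2 m1 a6
        unfold EE
        rw [mem_coe, mem_filter, mem_kes]
        refine ⟨⟨mem_image_of_mem _ m2, mem_image_of_mem _ m1, a6, ?_⟩,
          mem_image_of_mem _ a2, mem_image_of_mem _ a1⟩
        show bel (P.image (shr ε)) (sl (shr ε z.2) (shr ε z.1)) (shr ε z.2) = k
        rw [b1, a4]
      · intro z _ z' _ h5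
        simp only [Prod.mk.injEq] at h5
        exact Prod.ext (shr_inj ε h5.2) (shr_inj ε h5.1)
  have h2 : #((Finset.univ : Finset (Fin m)).offDiag.biUnion
      (fun c => pairs P k (A c.1) (A c.2))) ≤
      ∑ c ∈ (Finset.univ : Finset (Fin m)).offDiag, (#(EE P' (#P - 2 - k) A' c.1 c.2) +
        #(EE P' k A' c.2 c.1)) :=
    Finset.card_biUnion_le.trans (Finset.sum_le_sum h1)
  have h3 : ∑ c ∈ (Finset.univ : Finset (Fin m)).offDiag, #(EE P' k A' c.2 c.1) =
      ∑ c ∈ (Finset.univ : Finset (Fin m)).offDiag, #(EE P' k A' c.1 c.2) := by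
    refine Finset.sum_bij (fun c _ => c.swap) ?_ ?_ ?_ ?_
    · intro c hc
      rw [mem_offDiag] at hc ⊢
      exact ⟨hc.2.1, hc.1, hc.2.2.symm⟩
    · intro c _ d _ h
      exact Prod.swap_injective h
    · intro c hc
      refine ⟨c.swap, ?_, Prod.swap_swap c⟩
      rw [mem_offDiag] at hc ⊢
      exact ⟨hc.2.1, hc.1, hc.2.2.symm⟩
    · intro c _
      rfl
  rw [Finset.sum_add_distrib, h3] at h2
  have h4 : (#((Finset.univ : Finset (Fin m)).offDiag.biUnion
      (fun c => pairs P k (A c.1) (A c.2))) : ℝ) ≤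
      ∑ c ∈ (Finset.univ : Finset (Fin m)).offDiag, (#(EE P' (#P - 2 - k) A' c.1 c.2) : ℝ) +
        ∑ c ∈ (Finset.univ : Finset (Fin m)).offDiag, (#(EE P' k A' c.1 c.2) : ℝ) := by
    exact_mod_cast h2
  linarith

/-- the line passes through points of two different sets of the family -/
def Joins (A : Fin m → Finset (ℝ × ℝ)) (L : Set (ℝ × ℝ)) : Prop :=
  ∃ i j, i ≠ j ∧ (∃ x ∈ A i, x ∈ L) ∧ ∃ y ∈ A j, y ∈ L

lemma joins_pair (hP : Gen P) (hA : ∀ i, IsCluster P (A i))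
    (hd : ∀ i j, i ≠ j → Disjoint (A i) (A j)) {z : (ℝ × ℝ) × (ℝ × ℝ)} {k : ℕ}
    (hz : z ∈ pairs P k P P) (hL : Joins A {x | cr z.1 z.2 x = 0}) :
    ∃ i j, i ≠ j ∧ z ∈ pairs P k (A i) (A j) := by
  obtain ⟨i, j, hij, ⟨x, hx, hxL⟩, ⟨y, hy, hyL⟩⟩ := hL
  have hxy : x ≠ y := by
    rintro rfl
    exact Finset.disjoint_left.mp (hd i j hij) hx hy
  rw [mem_pairs] at hz
  obtain ⟨⟨h1, h2⟩, h3, h4⟩ := hz
  have key : ∀ w ∈ P, cr z.1 z.2 w = 0 → w = z.1 ∨ w = z.2 := by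
    intro w hw h
    by_contra hcon
    push Not at hcon
    exact hP _ h1 _ h2 w hw h3 (Ne.symm hcon.1) (Ne.symm hcon.2) h
  rcases key x ((hA i).1 hx) hxL with h5 | h5 <;> rcases key y ((hA j).1 hy) hyL with h6 | h6
  · exact absurd (h5.trans h6.symm) hxy
  · exact ⟨i, j, hij, mem_pairs.mpr ⟨⟨h5 ▸ hx, h6 ▸ hy⟩, h3, h4⟩⟩
  · exact ⟨j, i, hij.symm, mem_pairs.mpr ⟨⟨h6 ▸ hy, h5 ▸ hx⟩, h3, h4⟩⟩
  · exact absurd (h5.trans h6.symm) hxy

open scoped Classical in
lemma kline_pair {L : Set (ℝ × ℝ)} {k : ℕ} (hL : IsKLine P k L) :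
    ∃ z ∈ pairs P k P P, L = {x | cr z.1 z.2 x = 0} := by
  obtain ⟨a, b, c, hab, rfl, ⟨p, hp, q, hq, hpq, hpL, hqL⟩, hk⟩ := hL
  obtain ⟨h1, h2⟩ := sides hab hpq hpL hqL P
  rcases h2 with h2 | h2
  · refine ⟨(p, q), mem_pairs.mpr ⟨⟨hp, hq⟩, hpq, ?_⟩, h1⟩
    rw [← h2.1]; exact hk
  · refine ⟨(q, p), mem_pairs.mpr ⟨⟨hq, hp⟩, hpq.symm, ?_⟩, ?_⟩
    · rw [← h2.1]; exact hk
    · rw [h1]
      ext x
      show cr p q x = 0 ↔ cr q p x = 0
      rw [cr_swap p q x, neg_eq_zero]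

open scoped Classical in
lemma bis_pair {L : Set (ℝ × ℝ)} (hL : IsBisector P L) :
    ∃ z ∈ pairs P (#P / 2 - 1) P P, z.swap ∈ pairs P (#P / 2 - 1) P P ∧
      L = {x | cr z.1 z.2 x = 0} := by
  obtain ⟨a, b, c, hab, rfl, ⟨p, hp, q, hq, hpq, hpL, hqL⟩, hk1, hk2⟩ := hL
  obtain ⟨h1, h2⟩ := sides hab hpq hpL hqL P
  refine ⟨(p, q), mem_pairs.mpr ⟨⟨hp, hq⟩, hpq, ?_⟩,
    mem_pairs.mpr ⟨⟨hq, hp⟩, hpq.symm, ?_⟩, h1⟩
  · rcases h2 with h2 | h2
    · rw [← h2.1]; exact hk2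
    · rw [← h2.2]; exact hk1
  · rcases h2 with h2 | h2
    · show left P q p = _
      rw [← h2.2]; exact hk1
    · show left P q p = _
      rw [← h2.1]; exact hk2

open scoped Classical in
theorem kline_cross (hP : Gen P) (hA : ∀ i, IsCluster P (A i))
    (hd : ∀ i j, i ≠ j → Disjoint (A i) (A j)) (hne : ∀ i, (A i).Nonempty) (k : ℕ) :
    ({L | IsKLine P k L ∧ Joins A L}.ncard : ℝ) ≤ 446 * (#P * (m : ℝ) ^ (1 / 3 : ℝ)) := by
  refine le_trans ?_ (cross_sum hP hA hd hne k)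
  have hex : ∀ L : Set (ℝ × ℝ), ∃ z : (ℝ × ℝ) × (ℝ × ℝ), (IsKLine P k L ∧ Joins A L) →
      z ∈ (Finset.univ : Finset (Fin m)).offDiag.biUnion (fun c => pairs P k (A c.1) (A c.2)) ∧
      L = {x | cr z.1 z.2 x = 0} := by
    intro L
    by_cases hL : IsKLine P k L ∧ Joins A L
    · obtain ⟨z, hz, rfl⟩ := kline_pair hL.1
      obtain ⟨i, j, hij, h⟩ := joins_pair hP hA hd hz hL.2
      refine ⟨z, fun _ => ⟨?_, rfl⟩⟩
      rw [mem_biUnion]
      exact ⟨(i, j), by rw [mem_offDiag]; exact ⟨mem_univ _, mem_univ _, hij⟩, h⟩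
    · exact ⟨((0, 0), (0, 0)), fun h => absurd h hL⟩
  choose z hz using hex
  rw [← Set.ncard_coe_finset]
  have h := Set.ncard_le_ncard_of_injOn (s := {L | IsKLine P k L ∧ Joins A L}) z
    (fun L hL => mem_coe.mpr (hz L hL).1) (by
      intro L hL L' hL' h
      rw [(hz L hL).2, (hz L' hL').2, h]) (Finset.finite_toSet _)
  exact_mod_cast h

open scoped Classical in
theorem bis_cross (hP : Gen P) (hA : ∀ i, IsCluster P (A i))
    (hd : ∀ i j, i ≠ j → Disjoint (A i) (A j)) (hne : ∀ i, (A i).Nonempty) :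
    ({L | IsBisector P L ∧ Joins A L}.ncard : ℝ) ≤ 223 * (#P * (m : ℝ) ^ (1 / 3 : ℝ)) := by
  have hex : ∀ L : Set (ℝ × ℝ), ∃ z : (ℝ × ℝ) × (ℝ × ℝ), (IsBisector P L ∧ Joins A L) →
      (z ∈ (Finset.univ : Finset (Fin m)).offDiag.biUnion
        (fun c => pairs P (#P / 2 - 1) (A c.1) (A c.2)) ∧
      z.swap ∈ (Finset.univ : Finset (Fin m)).offDiag.biUnion
        (fun c => pairs P (#P / 2 - 1) (A c.1) (A c.2)) ∧ z.1 ≠ z.2) ∧
      L = {x | cr z.1 z.2 x = 0} := by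
    intro L
    by_cases hL : IsBisector P L ∧ Joins A L
    · obtain ⟨z, hz, hz2, rfl⟩ := bis_pair hL.1
      obtain ⟨i, j, hij, h⟩ := joins_pair hP hA hd hz hL.2
      refine ⟨z, fun _ => ⟨⟨?_, ?_, (mem_pairs.mp hz).2.1⟩, rfl⟩⟩
      · rw [mem_biUnion]
        exact ⟨(i, j), by rw [mem_offDiag]; exact ⟨mem_univ _, mem_univ _, hij⟩, h⟩
      · rw [mem_biUnion]
        rw [mem_pairs] at h hz2
        exact ⟨(j, i), by rw [mem_offDiag]; exact ⟨mem_univ _, mem_univ _, hij.symm⟩,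
          mem_pairs.mpr ⟨⟨h.1.2, h.1.1⟩, hz2.2⟩⟩
    · exact ⟨((0, 0), (0, 0)), fun h => absurd h hL⟩
  choose z hz using hex
  have h := two_mul_le {L | IsBisector P L ∧ Joins A L} _ z (fun L hL => (hz L hL).1) (by
    intro L hL L' hL' h
    rw [(hz L hL).2, (hz L' hL').2]
    rcases h with h | h
    · rw [h]
    · rw [h]
      ext x
      show cr (z L').2 (z L').1 x = 0 ↔ cr (z L').1 (z L').2 x = 0
      rw [cr_swap (z L').1 (z L').2 x, neg_eq_zero])
  have h2 := cross_sum hP hA hd hne (#P / 2 - 1)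
  have h3 : (2 * {L | IsBisector P L ∧ Joins A L}.ncard : ℝ) ≤
      #((Finset.univ : Finset (Fin m)).offDiag.biUnion
        (fun c => pairs P (#P / 2 - 1) (A c.1) (A c.2))) := by exact_mod_cast h
  linarith

open scoped Classical in
/-- the lines through two points of the same cluster -/
lemma inside_le (hU : ∀ p ∈ P, ∃ i, p ∈ A i) (k : ℕ) :
    {L | IsKLine P k L ∧ ¬ Joins A L}.ncard ≤ ∑ i, (#(A i)).choose 2 := by
  have hex : ∀ L : Set (ℝ × ℝ), ∃ c : Finset (ℝ × ℝ),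
      (IsKLine P k L ∧ ¬ Joins A L) →
      c ∈ (Finset.univ : Finset (Fin m)).biUnion (fun i => (A i).powersetCard 2) ∧
        ∃ x y, x ≠ y ∧ c = {x, y} ∧ L = {z | cr x y z = 0} := by
    intro L
    by_cases hL : IsKLine P k L ∧ ¬ Joins A L
    · obtain ⟨z, hz, rfl⟩ := kline_pair hL.1
      rw [mem_pairs] at hz
      obtain ⟨i, hi⟩ := hU _ hz.1.1
      obtain ⟨j, hj⟩ := hU _ hz.1.2
      have hij : i = j := by
        by_contra hne
        exact hL.2 ⟨i, j, hne, ⟨z.1, hi, cr_self_left _ _⟩, ⟨z.2, hj, cr_self_right _ _⟩⟩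
      subst hij
      refine ⟨{z.1, z.2}, fun _ => ⟨?_, z.1, z.2, hz.2.1, rfl, rfl⟩⟩
      rw [mem_biUnion]
      refine ⟨i, mem_univ _, ?_⟩
      rw [mem_powersetCard]
      refine ⟨?_, card_pair hz.2.1⟩
      intro x hx
      simp only [mem_insert, mem_singleton] at hx
      rcases hx with rfl | rfl
      · exact hi
      · exact hj
    · exact ⟨∅, fun h => absurd h hL⟩
  choose c hc using hex
  have h := Set.ncard_le_ncard_of_injOn (s := {L | IsKLine P k L ∧ ¬ Joins A L}) c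
    (fun L hL => mem_coe.mpr (hc L hL).1) (by
      intro L hL L' hL' h
      obtain ⟨-, x, y, hxy, h1, h2⟩ := hc L hL
      obtain ⟨-, x', y', hxy', h1', h2'⟩ := hc L' hL'
      rw [h1, h1'] at h
      have hx : x = x' ∨ x = y' := by
        have : x ∈ ({x, y} : Finset (ℝ × ℝ)) := mem_insert_self _ _
        rw [h] at this
        simpa using this
      have hy : y = x' ∨ y = y' := by
        have : y ∈ ({x, y} : Finset (ℝ × ℝ)) := mem_insert_of_mem (mem_singleton_self _)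
        rw [h] at this
        simpa using this
      rw [h2, h2']
      rcases hx with rfl | rfl <;> rcases hy with rfl | rfl
      · exact absurd rfl hxy
      · rfl
      · ext z
        show cr x y z = 0 ↔ cr y x z = 0
        rw [cr_swap x y z, neg_eq_zero]
      · exact absurd rfl hxy) (Finset.finite_toSet _)
  rw [Set.ncard_coe_finset] at h
  refine h.trans (Finset.card_biUnion_le.trans (le_of_eq ?_))
  exact Finset.sum_congr rfl fun i _ => card_powersetCard _ _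

open scoped Classical in
theorem kline_total (hP : Gen P) (hA : ∀ i, IsCluster P (A i))
    (hd : ∀ i j, i ≠ j → Disjoint (A i) (A j)) (hne : ∀ i, (A i).Nonempty)
    (hU : ∀ p ∈ P, ∃ i, p ∈ A i) (k : ℕ) :
    ({L | IsKLine P k L}.ncard : ℝ) ≤ 446 * (#P * (m : ℝ) ^ (1 / 3 : ℝ)) +
      ∑ i, ((#(A i)).choose 2 : ℝ) := by
  have h1 : {L | IsKLine P k L} ⊆ {L | IsKLine P k L ∧ Joins A L} ∪
      {L | IsKLine P k L ∧ ¬ Joins A L} := by
    intro L hL
    by_cases h : Joins A L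
    · exact Or.inl ⟨hL, h⟩
    · exact Or.inr ⟨hL, h⟩
  have hfin := kline_finite P k
  have h2 := (Set.ncard_le_ncard h1 ((hfin.subset fun L hL => hL.1).union
    (hfin.subset fun L hL => hL.1))).trans (Set.ncard_union_le _ _)
  have h3 := kline_cross hP hA hd hne k
  have h4 : ({L | IsKLine P k L ∧ ¬ Joins A L}.ncard : ℝ) ≤ ∑ i, ((#(A i)).choose 2 : ℝ) := by
    exact_mod_cast inside_le hU k
  have h5 : ({L | IsKLine P k L}.ncard : ℝ) ≤ {L | IsKLine P k L ∧ Joins A L}.ncard +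
      {L | IsKLine P k L ∧ ¬ Joins A L}.ncard := by exact_mod_cast h2
  linarith

open scoped Classical in
theorem bis_total (hP : Gen P) (hA : ∀ i, IsCluster P (A i))
    (hd : ∀ i j, i ≠ j → Disjoint (A i) (A j)) (hne : ∀ i, (A i).Nonempty)
    (hU : ∀ p ∈ P, ∃ i, p ∈ A i) :
    ({L | IsBisector P L}.ncard : ℝ) ≤ 223 * (#P * (m : ℝ) ^ (1 / 3 : ℝ)) +
      ∑ i, ((#(A i)).choose 2 : ℝ) := by
  have h1 : {L | IsBisector P L} ⊆ {L | IsBisector P L ∧ Joins A L} ∪
      {L | IsKLine P (#P / 2 - 1) L ∧ ¬ Joins A L} := by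
    intro L hL
    by_cases h : Joins A L
    · exact Or.inl ⟨hL, h⟩
    · right
      obtain ⟨a, b, c, hab, hL2, hpq, -, h2⟩ := hL
      exact ⟨⟨a, b, c, hab, hL2, hpq, h2⟩, h⟩
  have hfin := kline_finite P (#P / 2 - 1)
  have hfin2 : {L | IsBisector P L ∧ Joins A L}.Finite := by
    refine hfin.subset ?_
    rintro L ⟨⟨a, b, c, hab, hL2, hpq, -, h2⟩, -⟩
    exact ⟨a, b, c, hab, hL2, hpq, h2⟩
  have h2 := (Set.ncard_le_ncard h1 (hfin2.union
    (hfin.subset fun L hL => hL.1))).trans (Set.ncard_union_le _ _)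
  have h3 := bis_cross hP hA hd hne
  have h4 : ({L | IsKLine P (#P / 2 - 1) L ∧ ¬ Joins A L}.ncard : ℝ) ≤
      ∑ i, ((#(A i)).choose 2 : ℝ) := by
    exact_mod_cast inside_le hU (#P / 2 - 1)
  have h5 : ({L | IsBisector P L}.ncard : ℝ) ≤ {L | IsBisector P L ∧ Joins A L}.ncard +
      {L | IsKLine P (#P / 2 - 1) L ∧ ¬ Joins A L}.ncard := by exact_mod_cast h2
  linarith

end Pool.Agent.K7.H30.CT
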